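import Pool.Agent.Work.MP_8f87b2_h74.GadL3
import Pool.Agent.Work.MP_8f87b2_mid.FirstMax
import Pool.Agent.Work.MP_8f87b2_h71.H1Low

/-!
MP_8f87b2_co: THE NINE-WORD PAIR GADGETS as types of the interface. `D9 P Q S w`: the nine words `w9L P Q S (xT S)`, the
new words are `w 0 = S((P)Q)` and `w 1 = (P(Q))S`, the other seven words are higher. `Is9 P Q S F g`; level 3 gadget:
`P = ()^p`, `Q = ()^q`; gadget G9: `P`, `Q` empty.
-/

set_option autoImplicit false

namespace Pool.OddHC

open Finset Equiv BinaryTree Pool.Agent.Work.MP_8f87b2_co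

variable {k : ℕ} {P Q S : BinaryTree Unit}

/-! ### Heights -/

theorem hgt_ht (t : BinaryTree Unit) : hgt t = ht t := by
  induction t with
  | nil => rfl
  | node _ A B ihA ihB =>
    change max (hgt A + 1) (hgt B) = max (ht A + 1) (ht B)
    rw [ihA, ihB]

theorem sT_sq : ∀ t : BinaryTree Unit, sT t = (Tsq.sq t).1 ∧ bT t = (Tsq.sq t).2 := by
  intro t
  induction t with
  | nil => exact ⟨rfl, rfl⟩
  | node u A C ihA ihC =>
    change sT (A △ C) = (Tsq.sq (A △ C)).1 ∧ bT (A △ C) = (Tsq.sq (A △ C)).2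
    have eA : Tsq.ht A = hgt A := by rw [hgt_ht, H1.ht_eq]
    have eC : Tsq.ht C = hgt C := by rw [hgt_ht, H1.ht_eq]
    have e1 : sT (A △ C) = if hgt C ≤ hgt A + 1 then (match A with
      | .nil => .nil △ .nil
      | .node _ _ _ => sT A △ bT A)
      else (match sT C with
      | .nil => .nil
      | .node _ P Q => (A △ P) △ Q) := by cases A <;> rfl
    have e2 : bT (A △ C) = if hgt C ≤ hgt A + 1 then C else bT C := rfl
    by_cases h : Tsq.ht A + 1 < Tsq.ht C
    · have h' : ¬ hgt C ≤ hgt A + 1 := by omega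
      have hC : C ≠ .nil := by
        rintro rfl
        simp [Tsq.ht] at h
      obtain ⟨Xx, Y, hX⟩ : ∃ Xx Y, (Tsq.sq C).1 = Xx △ Y := by
        cases hS : (Tsq.sq C).1 with
        | nil => exact absurd hS (Tsq.sq_ne hC)
        | node _ Xx Y => exact ⟨Xx, Y, rfl⟩
      rw [Tsq.sq_lt h hX, e1, e2, if_neg h', if_neg h', ihC.1, ihC.2, hX]
      exact ⟨rfl, rfl⟩
    · have h' : hgt C ≤ hgt A + 1 := by omega
      rw [e1, e2, if_pos h', if_pos h']
      cases A with
      | nil =>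
        rw [Tsq.sq_nil (by rw [eC]; exact h')]
        exact ⟨rfl, rfl⟩
      | node v A1 A2 =>
        rw [Tsq.sq_ge (by simp) (by omega)]
        change sT _ △ bT _ = _ ∧ _
        rw [ihA.1, ihA.2]
        exact ⟨rfl, rfl⟩

theorem xT_sq (S : BinaryTree Unit) : xT S = (Tsq.sq S).1 △ (Tsq.sq S).2 := by
  unfold xT
  rw [(sT_sq S).1, (sT_sq S).2]
  rfl

theorem ht_sq (hS : S ≠ .nil) : ht (Tsq.sq S).1 = ht S ∧ ht (Tsq.sq S).2 ≤ ht S := by
  have h := Tsq.ht_sq hS
  rw [H1.ht_eq, H1.ht_eq, H1.ht_eq] at h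
  exact h

theorem ht_xT (hS : S ≠ .nil) : ht (xT S) = ht S + 1 := by
  obtain ⟨h1, h2⟩ := ht_sq hS
  rw [xT_sq, ht_node]
  omega

theorem ne_of_ht {h : ℕ} (hS : h + 1 ≤ ht S) : S ≠ .nil := by
  rintro rfl
  rw [ht] at hS
  omega

/-- the heights of the nine words -/
theorem ht9 (hP : ht P + 2 ≤ ht S) (hQ : ht Q + 2 ≤ ht S) {i : ℕ} (hi : i < 9) :
    ht (w9L P Q S (xT S) i) = if i < 2 then ht S else if i = 3 ∨ i = 6 then ht S + 2
      else ht S + 1 := by
  have hS : S ≠ .nil := ne_of_ht (h := 0) (by omega)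
  have hX := ht_xT hS
  have h0 : ht (BinaryTree.nil : BinaryTree Unit) = 0 := rfl
  interval_cases i <;> simp only [w9L, ht_w1, ht_app, hX, h0] <;> norm_num <;> omega

/-! ### The nine words are different -/

/-- the first tallest component is determined -/
theorem tall_inj {h : ℕ} {A R A' R' : BinaryTree Unit} (hA : h ≤ ht A) (hA' : h ≤ ht A') :
    ∀ P P' : BinaryTree Unit, ht P ≤ h → ht P' ≤ h → w1 P A R = w1 P' A' R' →
      P = P' ∧ A = A' ∧ R = R' := by
  intro P
  induction P with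
  | nil =>
    intro P' _ h2 e
    cases P' with
    | nil =>
      have e' : A △ R = A' △ R' := e
      injection e' with _ e1 e2
      exact ⟨rfl, e1, e2⟩
    | node u C D =>
      exfalso
      have e' : A △ R = C △ app D (A' △ R') := e
      injection e' with _ e1 e2
      have h3 : max (ht C + 1) (ht D) ≤ h := h2
      rw [e1] at hA
      omega
  | node u C D _ ih =>
    intro P' h1 h2 e
    have h3 : max (ht C + 1) (ht D) ≤ h := h1
    cases P' with
    | nil =>
      exfalso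
      have e' : C △ app D (A △ R) = A' △ R' := e
      injection e' with _ e1 e2
      rw [← e1] at hA'
      omega
    | node v C' D' =>
      have e' : C △ app D (A △ R) = C' △ app D' (A' △ R') := e
      injection e' with _ e1 e2
      have h4 : max (ht C' + 1) (ht D') ≤ h := h2
      obtain ⟨k1, k2, k3⟩ := ih D' (by omega) (by omega) e2
      exact ⟨by rw [e1, k1], k2, k3⟩

theorem pile_of {S : BinaryTree Unit} : .nil △ S = app S (.nil △ .nil) → ht S ≤ 1 := by
  induction S with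
  | nil => intro _; exact Nat.zero_le _
  | node _ C D _ ih =>
    intro e
    have e' : .nil △ (C △ D) = C △ app D (.nil △ .nil) := e
    injection e' with _ e1 e2
    rw [← e1] at e2 ⊢
    have := ih e2
    change max (0 + 1) (ht D) ≤ 1
    omega

theorem list_rot {x : Bool} : ∀ {a : List Bool}, a ++ [x] = x :: a → a = List.replicate a.length x := by
  intro a
  induction a with
  | nil => intro _; rfl
  | cons y a ih =>
    intro e
    rw [List.cons_append, List.cons.injEq] at e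
    obtain ⟨rfl, e⟩ := e
    rw [List.length_cons, List.replicate_succ, ← ih e]

/-- `S' = S` only for a single soliton -/
theorem sq_fix (hS : S ≠ .nil) (e : (Tsq.sq S).1 = S) : S.numNodes = ht S := by
  obtain ⟨a, c, h1, h2, h3, h4, h5, h6, h7⟩ := Tsq.sq_spec S hS
  have hn := Tsq.sq_num hS
  rw [e] at hn h2
  have hB : (Tsq.sq S).2 = .nil := by
    cases hB : (Tsq.sq S).2 with
    | nil => rfl
    | node _ C D =>
      rw [hB] at hn
      simp only [BinaryTree.numNodes] at hn
      omega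
  rw [hB] at h1
  have e1 : (a ++ [true]) ++ (c ++ [false]) = (true :: a) ++ (false :: c) := by
    have := h1.symm.trans h2
    simpa [wd] using this
  obtain ⟨e2, e3⟩ := List.append_inj e1 (by simp)
  have e4 := list_rot e2
  have e5 := list_rot e3
  have c1 : a.count true = a.length := by rw [e4]; simp
  have c2 : a.count false = 0 := by rw [e4, List.count_replicate]; simp
  have c3 : c.count false = c.length := by rw [e5]; simp
  have c4 : c.count true = 0 := by rw [e5, List.count_replicate]; simp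
  have e6 := congrArg List.length h1
  rw [wd_length] at e6
  simp [wd] at e6
  rw [H1.ht_eq] at h4 h6
  omega

theorem num_app' (P Q : BinaryTree Unit) : (app P Q).numNodes = P.numNodes + Q.numNodes := by
  have h := congrArg List.length (wd_app P Q)
  rw [wd_length, List.length_append, wd_length, wd_length] at h
  omega

theorem num_w1 (P Q R : BinaryTree Unit) :
    (w1 P Q R).numNodes = P.numNodes + Q.numNodes + R.numNodes + 1 := by
  rw [w1, num_app']
  change P.numNodes + (Q.numNodes + R.numNodes + 1) = _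
  omega

theorem num_nil {t : BinaryTree Unit} (h : t.numNodes = 0) : t = .nil := by
  cases t with
  | nil => rfl
  | node _ A B =>
    simp only [BinaryTree.numNodes] at h
    omega

/-- the words `2, 4, 5, 7, 8` by their tallest component -/
theorem form9 (P Q S : BinaryTree Unit) :
    w9L P Q S (xT S) 2 = w1 P (w1 Q .nil S) .nil ∧
    w9L P Q S (xT S) 4 = w1 .nil (w1 S .nil P) Q ∧
    w9L P Q S (xT S) 5 = w1 .nil S (w1 .nil P Q) ∧
    w9L P Q S (xT S) 7 = w1 Q (Tsq.sq S).1 (app (Tsq.sq S).2 (.nil △ P)) ∧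
    w9L P Q S (xT S) 8 = w1 (P △ Q) (Tsq.sq S).1 (Tsq.sq S).2 ∧
    w9L P Q S (xT S) 3 = w1 Q (w1 .nil S .nil) P ∧
    w9L P Q S (xT S) 6 = w1 P (app Q (xT S)) .nil := by
  refine ⟨rfl, rfl, rfl, ?_, ?_, rfl, rfl⟩
  · change app (app Q (xT S)) (.nil △ P) = _
    rw [xT_sq, Tsq.app_assoc]
    rfl
  · change P △ app Q (xT S) = _
    rw [xT_sq]
    rfl

theorem w9_ne (hP : ht P + 2 ≤ ht S) (hQ : ht Q + 2 ≤ ht S) (h2 : ht S < S.numNodes) {i j : ℕ}
    (hi : 2 ≤ i) (hij : i < j) (hj : j < 9) : w9L P Q S (xT S) i ≠ w9L P Q S (xT S) j := by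
  have hS : S ≠ .nil := ne_of_ht (h := 0) (by omega)
  obtain ⟨f2, f4, f5, f7, f8, f3, f6⟩ := form9 P Q S
  obtain ⟨s1, s2⟩ := ht_sq hS
  have hn := Tsq.sq_num hS
  have h0 : ht (BinaryTree.nil : BinaryTree Unit) = 0 := rfl
  have hfix : (Tsq.sq S).1 ≠ S := by
    intro e
    have := sq_fix hS e
    omega
  have hne : ∀ {i j : ℕ}, i < 9 → j < 9 → w9L P Q S (xT S) i = w9L P Q S (xT S) j →
      (if i < 2 then ht S else if i = 3 ∨ i = 6 then ht S + 2 else ht S + 1) =
        (if j < 2 then ht S else if j = 3 ∨ j = 6 then ht S + 2 else ht S + 1) := by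
    intro i j hi hj e
    rw [← ht9 hP hQ hi, ← ht9 hP hQ hj, e]
  have H2 : ht (w1 Q .nil S) = ht S := by rw [ht_w1, h0]; omega
  have H4 : ht (w1 S .nil P) = ht S := by rw [ht_w1, h0]; omega
  have H8 : ht (P △ Q) ≤ ht S := by rw [ht_node]; omega
  have n0 : (BinaryTree.nil : BinaryTree Unit).numNodes = 0 := rfl
  have n8 : (P △ Q).numNodes = P.numNodes + Q.numNodes + 1 := rfl
  intro e
  have hi9 : i < 9 := by omega
  interval_cases i
  · -- word 2
    interval_cases j
    · have := hne (by norm_num) (by norm_num) e; norm_num at this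
    · -- 2, 4
      rw [f2, f4] at e
      obtain ⟨k1, k2, _⟩ := tall_inj (h := ht S) (by omega) (by omega) _ _ (by omega) (by omega) e
      have k3 := congrArg BinaryTree.numNodes k2
      rw [num_w1, num_w1, k1, n0] at k3
      have k4 : Q = .nil := num_nil (by omega)
      rw [k1, k4] at k2
      have := pile_of k2
      omega
    · rw [f2, f5] at e
      obtain ⟨k1, k2, _⟩ := tall_inj (h := ht S) (by omega) (by omega) _ _ (by omega) (by omega) e
      have k3 := congrArg BinaryTree.numNodes k2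
      rw [num_w1] at k3
      omega
    · have := hne (by norm_num) (by norm_num) e; norm_num at this
    · rw [f2, f7] at e
      obtain ⟨k1, k2, _⟩ := tall_inj (h := ht S) (by omega) (by omega) _ _ (by omega) (by omega) e
      have k3 := congrArg BinaryTree.numNodes k2
      rw [num_w1] at k3
      omega
    · rw [f2, f8] at e
      obtain ⟨k1, k2, _⟩ := tall_inj (h := ht S) (by omega) (by omega) _ _ (by omega) (by omega) e
      have k3 := congrArg BinaryTree.numNodes k2
      rw [num_w1] at k3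
      omega
  · -- word 3
    interval_cases j
    · have := hne (by norm_num) (by norm_num) e; norm_num at this
    · have := hne (by norm_num) (by norm_num) e; norm_num at this
    · -- 3, 6
      rw [f3, f6] at e
      have H3 : ht (w1 .nil S .nil) = ht S + 1 := by rw [ht_w1, h0]; omega
      have H6 : ht (app Q (xT S)) = ht S + 1 := by rw [ht_app, ht_xT hS]; omega
      obtain ⟨k1, k2, _⟩ := tall_inj (h := ht S + 1) (by omega) (by omega) _ _ (by omega) (by omega) e
      have k3 := congrArg BinaryTree.numNodes k2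
      rw [num_w1, num_app', xT_num hS, n0] at k3
      have k4 : Q = .nil := num_nil (by omega)
      rw [k4, xT_sq] at k2
      have k5 : S △ .nil = (Tsq.sq S).1 △ (Tsq.sq S).2 := k2
      injection k5 with _ k6 k7
      exact hfix k6.symm
    · have := hne (by norm_num) (by norm_num) e; norm_num at this
    · have := hne (by norm_num) (by norm_num) e; norm_num at this
  · -- word 4
    interval_cases j
    · rw [f4, f5] at e
      obtain ⟨k1, k2, _⟩ := tall_inj (h := ht S) (by omega) (by omega) _ _ (by omega) (by omega) e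
      have k3 := congrArg BinaryTree.numNodes k2
      rw [num_w1] at k3
      omega
    · have := hne (by norm_num) (by norm_num) e; norm_num at this
    · rw [f4, f7] at e
      obtain ⟨k1, k2, _⟩ := tall_inj (h := ht S) (by omega) (by omega) _ _ (by omega) (by omega) e
      have k3 := congrArg BinaryTree.numNodes k2
      rw [num_w1] at k3
      omega
    · rw [f4, f8] at e
      obtain ⟨k1, k2, _⟩ := tall_inj (h := ht S) (by omega) (by omega) _ _ (by omega) (by omega) e
      have k3 := congrArg BinaryTree.numNodes k2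
      rw [num_w1] at k3
      omega
  · -- word 5
    interval_cases j
    · have := hne (by norm_num) (by norm_num) e; norm_num at this
    · rw [f5, f7] at e
      obtain ⟨k1, k2, _⟩ := tall_inj (h := ht S) (by omega) (by omega) _ _ (by omega) (by omega) e
      exact hfix k2.symm
    · rw [f5, f8] at e
      obtain ⟨k1, k2, _⟩ := tall_inj (h := ht S) (by omega) (by omega) _ _ (by omega) (by omega) e
      have k3 := congrArg BinaryTree.numNodes k1
      rw [n8, n0] at k3
      omega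
  · interval_cases j
    · have := hne (by norm_num) (by norm_num) e; norm_num at this
    · have := hne (by norm_num) (by norm_num) e; norm_num at this
  · interval_cases j
    rw [f7, f8] at e
    obtain ⟨k1, k2, _⟩ := tall_inj (h := ht S) (by omega) (by omega) _ _ (by omega) (by omega) e
    have k3 := congrArg BinaryTree.numNodes k1
    rw [n8] at k3
    omega
  · omega

/-! ### The data of a gadget -/

/-- the data of a nine-word pair gadget -/
structure D9 (P Q S : BinaryTree Unit) (w : ℕ → X k) : Prop where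
  hP : ht P + 2 ≤ ht S
  hQ : ht Q + 2 ≤ ht S
  two : ht S < S.numNodes
  word : ∀ i < 9, (w i).1 = w9L P Q S (xT S) i
  new : cyc (w 0) ≠ cyc (w 1)

variable {w : ℕ → X k}

theorem D9.ne (h : D9 P Q S w) : S ≠ .nil := by
  have := h.hP
  exact ne_of_ht (h := 0) (by omega)

theorem D9.htw (h : D9 P Q S w) {i : ℕ} (hi : i < 9) : htc (cyc (w i)) =
    if i < 2 then ht S else if i = 3 ∨ i = 6 then ht S + 2 else ht S + 1 := by
  rw [htc_cyc, h.word i hi, ht9 h.hP h.hQ hi]

theorem D9.old (h : D9 P Q S w) {i : ℕ} (h2 : 2 ≤ i) (hi : i < 9) : ht S < htc (cyc (w i)) := by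
  rw [h.htw hi]
  split_ifs <;> omega

theorem D9.hold (h : D9 P Q S w) : ∀ i, 2 ≤ i → i < 9 →
    ¬ TT.SameCycle (w 0) (w i) ∧ ¬ TT.SameCycle (w 1) (w i) := by
  intro i h2 hi
  have h3 := h.old h2 hi
  constructor
  · intro e
    have e1 : cyc (w 0) = cyc (w i) := cyc_eq.2 e
    rw [← e1, h.htw (by norm_num)] at h3
    simp at h3
  · intro e
    have e1 : cyc (w 1) = cyc (w i) := cyc_eq.2 e
    rw [← e1, h.htw (by norm_num)] at h3
    simp at h3

theorem D9.inj (h : D9 P Q S w) : ∀ i < 9, ∀ j < 9, w i = w j → i = j := by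
  have key : ∀ i j, i < j → j < 9 → w i ≠ w j := by
    intro i j hij hj e
    rcases Nat.lt_or_ge i 2 with h1 | h1
    · rcases Nat.lt_or_ge j 2 with h2 | h2
      · have hi0 : i = 0 := by omega
        have hj1 : j = 1 := by omega
        subst hi0
        subst hj1
        exact h.new (by rw [e])
      · have h3 := h.old h2 hj
        rw [← e, h.htw (by omega), if_pos h1] at h3
        exact lt_irrefl _ h3
    · apply w9_ne h.hP h.hQ h.two h1 hij hj
      rw [← h.word i (by omega), ← h.word j hj, e]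
  intro i hi j hj e
  rcases lt_trichotomy i j with h1 | h1 | h1
  · exact absurd e (key i j h1 hj)
  · exact h1
  · exact absurd e.symm (key j i h1 hi)

theorem D9.size (h : D9 P Q S w) : P.numNodes + Q.numNodes + S.numNodes + 2 = k := by
  have h1 := X_num (w 0)
  rw [h.word 0 (by norm_num)] at h1
  change (w1 S (w1 .nil P Q) .nil).numNodes = k at h1
  rw [num_w1, num_w1] at h1
  have n0 : (BinaryTree.nil : BinaryTree Unit).numNodes = 0 := rfl
  omega

theorem D9.abs (h : D9 P Q S w) : (gad9 w).Abs := by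
  refine gad9L_abs h.ne h.size h.word h.inj ?_ h.hold
  intro e
  exact h.new (cyc_eq.2 e)

theorem D9.arcs (h : D9 P Q S w) : TT (TT (w 3)) = w 6 ∧ TT (TT (w 4)) = w 7 ∧
    TT (TT (w 5)) = w 8 := by
  have h1 := h.hP
  have h2 := h.hQ
  exact arcs9L h.ne (by rw [hgt_ht, hgt_ht]; omega) (by rw [hgt_ht, hgt_ht]; omega) h.word

/-- TYPE 9 -/
def Is9 (P Q S : BinaryTree Unit) (F : Set (Cyc k)) (g : DG k) : Prop :=
  ∃ w : ℕ → X k, D9 P Q S w ∧ F = {cyc (w 0), cyc (w 1)} ∧ g = gad9 w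

variable {F F' : Set (Cyc k)} {g g' : DG k}

theorem mem_gad9 {w : ℕ → X k} {x : X k} : x ∈ (gad9 w).B ↔ ∃ i < 9, w i = x := by
  classical
  change x ∈ (range 9).image w ↔ _
  rw [Finset.mem_image]
  constructor
  · rintro ⟨i, hi, rfl⟩; exact ⟨i, Finset.mem_range.1 hi, rfl⟩
  · rintro ⟨i, hi, rfl⟩; exact ⟨i, Finset.mem_range.2 hi, rfl⟩

theorem Is9.hF (h : Is9 P Q S F g) : ∀ w, w ∈ g.F ↔ cyc w ∈ F := by
  obtain ⟨w, h1, rfl, rfl⟩ := h
  intro x
  change (TT.SameCycle (w 0) x ∨ TT.SameCycle (w 1) x) ↔ (cyc x = _ ∨ cyc x = _)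
  rw [← cyc_eq, ← cyc_eq]
  constructor
  · rintro (e | e)
    · exact Or.inl e.symm
    · exact Or.inr e.symm
  · rintro (e | e)
    · exact Or.inl e.symm
    · exact Or.inr e.symm

theorem Is9.new (h : Is9 P Q S F g) : ∀ c ∈ F, ∃ u ∈ g.B, cyc u = c := by
  obtain ⟨w, h1, rfl, rfl⟩ := h
  rintro c (rfl | rfl)
  · exact ⟨_, mem_gad9.2 ⟨0, by norm_num, rfl⟩, rfl⟩
  · exact ⟨_, mem_gad9.2 ⟨1, by norm_num, rfl⟩, rfl⟩

theorem Is9.htp' (h : Is9 P Q S F g) : ∀ c ∈ F, htc c = ht S := by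
  obtain ⟨w, h1, rfl, rfl⟩ := h
  rintro c (rfl | rfl)
  · rw [h1.htw (by norm_num)]; rfl
  · rw [h1.htw (by norm_num)]; rfl

theorem Is9.htp (h : Is9 P Q S F g) : ∀ c ∈ F, ∀ d ∈ F, htc c = htc d := by
  intro c hc d hd
  rw [h.htp' c hc, h.htp' d hd]

theorem Is9.rank (h : Is9 P Q S F g) : ∀ w ∈ g.B, cyc w ∈ F ∨ ∀ c ∈ F, htc c < htc (cyc w) := by
  have h2 := h.htp'
  obtain ⟨w, h1, rfl, rfl⟩ := h
  intro x hx
  obtain ⟨i, hi, rfl⟩ := mem_gad9.1 hx
  rcases Nat.lt_or_ge i 2 with h3 | h3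
  · left
    interval_cases i
    · exact Or.inl rfl
    · exact Or.inr rfl
  · right
    intro c hc
    rw [h2 c hc]
    exact h1.old h3 hi

theorem Is9.old (h : Is9 P Q S F g) : ∃ u ∈ g.B, cyc u ∉ F := by
  have h2 := h.htp'
  obtain ⟨w, h1, rfl, rfl⟩ := h
  refine ⟨_, mem_gad9.2 ⟨2, by norm_num, rfl⟩, ?_⟩
  intro hc
  have h3 := h1.old (i := 2) (by norm_num) (by norm_num)
  rw [h2 _ hc] at h3
  exact lt_irrefl _ h3

theorem Is9.abs (h : Is9 P Q S F g) : g.Abs := by
  obtain ⟨w, h1, rfl, rfl⟩ := h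
  exact h1.abs

/-- the words of the gadget -/
theorem Is9.words (h : Is9 P Q S F g) : ∀ w ∈ g.B, ∃ i < 9, w.1 = w9L P Q S (xT S) i ∧
    (i < 2 → cyc w ∈ F) := by
  obtain ⟨w, h1, rfl, rfl⟩ := h
  intro x hx
  obtain ⟨i, hi, rfl⟩ := mem_gad9.1 hx
  refine ⟨i, hi, h1.word i hi, ?_⟩
  intro h3
  interval_cases i
  · exact Or.inl rfl
  · exact Or.inr rfl

/-! ### The inner words -/

theorem H1.FM.ex (hS : S ≠ .nil) : ∃ a c : List Bool, H1.FM S a (c ++ false :: wd (Tsq.sq S).2) ∧
    wd (Tsq.sq S).1 = true :: (a ++ false :: c) ∧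
    (∀ m, (c.take m).count true ≤ (c.take m).count false) ∧
    c.count false + 1 = c.count true + Tsq.ht S := by
  obtain ⟨a, c, h1, h2, h3, h4, h5, h6, h7⟩ := Tsq.sq_spec S hS
  exact ⟨a, c, ⟨h1, h3, h4⟩, h2, h5, h6⟩

/-- the first maximum of `T x` -/
theorem H1.FM.TT {x : X k} {a c : List Bool} (h : H1.FM x.1 a (c ++ false :: wd (Tsq.sq x.1).2))
    (hs : wd (Tsq.sq x.1).1 = true :: (a ++ false :: c))
    (h6 : c.count false + 1 = c.count true + Tsq.ht x.1) :
    H1.FM (TT x).1 (c.map not) ((wd (Tsq.sq x.1).2).map not ++ false :: a.map not) := by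
  have e := h.wdT
  have hh : Tsq.ht (OddHC.TT x).1 = Tsq.ht x.1 := by
    rw [H1.ht_eq, H1.ht_eq, ← htc_cyc, ← htc_cyc]
    congr 1
    exact cyc_eq.2 ⟨-1, by simp⟩
  refine ⟨by rw [e]; simp, ?_, ?_⟩
  · intro m
    rw [hh, ← List.map_take, Tsq.count_not_true, Tsq.count_not_false]
    have h1 := wd_take (Tsq.sq x.1).1 (a.length + 2 + m)
    rw [hs] at h1
    have e2 : (true :: (a ++ false :: c)).take (a.length + 2 + m) =
        true :: (a ++ false :: c.take m) := by
      rw [show a.length + 2 + m = (a.length + (m + 1)) + 1 by omega, List.take_succ_cons,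
        List.take_append, List.take_of_length_le (by omega)]
      rw [show a.length + (m + 1) - a.length = m + 1 by omega, List.take_succ_cons]
    rw [e2] at h1
    have h4 := h.top
    simp at h1
    omega
  · rw [hh, Tsq.count_not_true, Tsq.count_not_false]
    exact h6

theorem cyc_TT (x : X k) : cyc (TT x) = cyc x := cyc_eq.2 ⟨-1, by simp⟩

theorem num_pos (hS : S ≠ .nil) : 1 ≤ ht S := by
  have := Tsq.ht_pos hS
  rw [H1.ht_eq] at this
  omega

/-- the first maxima of the words `2, 4, 5` and of `T (word 4)`, `T (word 5)` -/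
theorem D9.fm (h : D9 P Q S w) : ∃ a b : List Bool, H1.FM S a b ∧
    b.count false = b.count true + ht S ∧
    H1.FM (w 2).1 (wd P ++ true :: (wd Q ++ true :: false :: a)) (b ++ [false]) ∧
    H1.FM (w 4).1 (true :: a) (b ++ true :: false :: wd P ++ false :: wd Q) ∧
    H1.FM (w 5).1 (true :: a) (b ++ false :: (true :: (wd P ++ false :: wd Q))) ∧
    H1.FM (TT (w 4)).1 ((b ++ true :: false :: wd P).map not)
      ((wd Q).map not ++ false :: false :: a.map not) ∧
    H1.FM (TT (w 5)).1 (b.map not)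
      ((true :: (wd P ++ false :: wd Q)).map not ++ false :: false :: a.map not) := by
  have hS := h.ne
  have hP := h.hP
  have hQ := h.hQ
  have n0 : Tsq.ht (BinaryTree.nil : BinaryTree Unit) = 0 := rfl
  have eS : Tsq.ht S = ht S := H1.ht_eq S
  have eP : Tsq.ht P = ht P := H1.ht_eq P
  have eQ : Tsq.ht Q = ht Q := H1.ht_eq Q
  obtain ⟨a, c, f0, f1, f2, f3⟩ := H1.FM.ex hS
  have cB := wd_counts (Tsq.sq S).2
  -- word 2
  have k2 : H1.FM (w 2).1 (wd P ++ true :: (wd Q ++ true :: false :: a))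
      ((c ++ false :: wd (Tsq.sq S).2) ++ [false]) := by
    have g1 := f0.app_left (P := .nil △ .nil) (by rw [Tsq.ht_node, n0]; omega)
    have g2 := g1.app_left (P := Q) (by
      rw [Tsq.ht_app, Tsq.ht_node, n0]; omega)
    have g3 := g2.node (Z := .nil) (by rw [n0]; omega)
    have g4 := g3.app_left (P := P) (by
      rw [Tsq.ht_node, Tsq.ht_app, Tsq.ht_app, Tsq.ht_node, n0]; omega)
    rw [h.word 2 (by norm_num)]
    exact g4
  have k4 : H1.FM (w 4).1 (true :: a)
      ((c ++ false :: wd (Tsq.sq S).2) ++ true :: false :: wd P ++ false :: wd Q) := by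
    have g1 := f0.app_right (Z := .nil △ P) (by rw [Tsq.ht_node, n0]; omega)
    have g2 := g1.node (Z := Q) (by rw [Tsq.ht_app]; omega)
    rw [h.word 4 (by norm_num)]
    exact g2
  have k5 : H1.FM (w 5).1 (true :: a)
      ((c ++ false :: wd (Tsq.sq S).2) ++ false :: (true :: (wd P ++ false :: wd Q))) := by
    have g1 := f0.node (Z := P △ Q) (by rw [Tsq.ht_node]; omega)
    rw [h.word 5 (by norm_num)]
    rw [wd_node] at g1
    exact g1
  refine ⟨a, _, f0, ?_, k2, k4, k5, ?_, ?_⟩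
  · rw [List.count_append, List.count_append, List.count_cons, List.count_cons, cB.1, cB.2]
    simp
    omega
  · -- `T (word 4)`
    have e4 : (w 4).1 = (app S (.nil △ P)) △ Q := h.word 4 (by norm_num)
    have hne : (w 4).1 ≠ .nil := by rw [e4]; simp
    have hB : (Tsq.sq (w 4).1).2 = Q := by
      rw [e4, Tsq.sq_ge (Tsq.app_ne_nil hS) (by rw [Tsq.ht_app]; omega)]
    obtain ⟨a4, c4, g0, g1, g2, g3⟩ := H1.FM.ex hne
    rw [hB] at g0
    obtain ⟨e1, e2⟩ := g0.uniq k4
    have e3 := List.append_cancel_right e2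
    subst e1
    subst e3
    rw [← hB] at g0
    have g4 := g0.TT g1 g3
    rw [hB] at g4
    exact g4
  · have e5 : (w 5).1 = S △ (P △ Q) := h.word 5 (by norm_num)
    have hne : (w 5).1 ≠ .nil := by rw [e5]; simp
    have hB : (Tsq.sq (w 5).1).2 = P △ Q := by
      rw [e5, Tsq.sq_ge hS (by rw [Tsq.ht_node]; omega)]
    obtain ⟨a4, c4, g0, g1, g2, g3⟩ := H1.FM.ex hne
    rw [hB, wd_node] at g0
    obtain ⟨e1, e2⟩ := g0.uniq k5
    have e3 := List.append_cancel_right e2
    subst e1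
    subst e3
    have g0' : H1.FM (w 5).1 (true :: a) ((c ++ false :: wd (Tsq.sq S).2) ++
        false :: wd (Tsq.sq (w 5).1).2) := by
      rw [hB, wd_node]
      exact g0
    have g4 := g0'.TT g1 g3
    rw [hB, wd_node] at g4
    exact g4

/-- own inner words, reduction to four cases -/
theorem D9.own_of (h : D9 P Q S w) (hA : TT (w 4) ≠ w 2) (hB : TT (w 4) ≠ w 5)
    (hC : TT (w 5) ≠ w 4) (hD : TT (w 5) ≠ w 2) {i : ℕ} (hi : i = 3 ∨ i = 4 ∨ i = 5) {j : ℕ}
    (hj : j < 9) : TT (w i) ≠ w j := by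
  obtain ⟨a3, a4, a5⟩ := h.arcs
  intro e
  have hh : htc (cyc (w i)) = htc (cyc (w j)) := by rw [← e, cyc_TT]
  rw [h.htw hj, h.htw (show i < 9 by omega)] at hh
  rcases hi with rfl | rfl | rfl
  · have hj' : j = 3 ∨ j = 6 := by
      by_contra hn
      rw [if_neg (show ¬ ((3 : ℕ) < 2) by norm_num), if_pos (Or.inl rfl), if_neg hn] at hh
      split_ifs at hh <;> omega
    rcases hj' with rfl | rfl
    · have := h.inj 3 (by norm_num) 6 (by norm_num) (by rw [← a3, e, e])
      omega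
    · have e1 : TT (w 3) = w 3 := by
        have := e.trans a3.symm
        exact (TT.injective this).symm
      have := h.inj 3 (by norm_num) 6 (by norm_num) (by rw [← a3, e1, e1])
      omega
  · have hj' : j = 2 ∨ j = 4 ∨ j = 5 ∨ j = 7 ∨ j = 8 := by
      by_contra hn
      rw [if_neg (show ¬ ((4 : ℕ) < 2) by norm_num), if_neg (by norm_num)] at hh
      split_ifs at hh <;> omega
    rcases hj' with rfl | rfl | rfl | rfl | rfl
    · exact hA e
    · have := h.inj 4 (by norm_num) 7 (by norm_num) (by rw [← a4, e, e])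
      omega
    · exact hB e
    · have e1 : TT (w 4) = w 4 := (TT.injective (e.trans a4.symm)).symm
      have := h.inj 4 (by norm_num) 7 (by norm_num) (by rw [← a4, e1, e1])
      omega
    · exact hC (TT.injective (e.trans a5.symm)).symm
  · have hj' : j = 2 ∨ j = 4 ∨ j = 5 ∨ j = 7 ∨ j = 8 := by
      by_contra hn
      rw [if_neg (show ¬ ((5 : ℕ) < 2) by norm_num), if_neg (by norm_num)] at hh
      split_ifs at hh <;> omega
    rcases hj' with rfl | rfl | rfl | rfl | rfl
    · exact hD e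
    · exact hC e
    · have := h.inj 5 (by norm_num) 8 (by norm_num) (by rw [← a5, e, e])
      omega
    · exact hB (TT.injective (e.trans a4.symm)).symm
    · have e1 : TT (w 5) = w 5 := (TT.injective (e.trans a5.symm)).symm
      have := h.inj 5 (by norm_num) 8 (by norm_num) (by rw [← a5, e1, e1])
      omega

theorem not_inj {l l' : List Bool} (h : l.map not = l') : l = l'.map not := by
  rw [← h, List.map_map]
  simp [Function.comp_def]

/-- own inner words of G9: the first component of `S` is lower than `S` -/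
theorem D9.own_e (h : D9 .nil .nil S w) (h3 : 3 ≤ ht S) {A Y : BinaryTree Unit} (hA : S = A △ Y)
    (hlow : ht A + 1 < ht S) {i : ℕ} (hi : i = 3 ∨ i = 4 ∨ i = 5) {j : ℕ}
    (hj : j < 9) : TT (w i) ≠ w j := by
  obtain ⟨a, b, f0, f1, k2, k4, k5, t4, t5⟩ := h.fm
  simp only [wd, List.nil_append, List.map_nil, List.map_cons, List.map_append, Bool.not_true,
    Bool.not_false, List.cons_append] at k2 k4 k5 t4 t5
  have eS : Tsq.ht S = ht S := H1.ht_eq S
  have htop := f0.top
  -- the first letters of `a`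
  have ha1 : ∃ a', a = true :: a' := by
    cases a with
    | nil => simp at htop; omega
    | cons x a' =>
      cases x with
      | true => exact ⟨a', rfl⟩
      | false =>
        exfalso
        have h1 := wd_take S 1
        rw [f0.eq] at h1
        simp at h1
  obtain ⟨a', ha⟩ := ha1
  have ha2 : a' ≠ [] := by
    rintro rfl
    rw [ha] at htop
    simp at htop
    omega
  apply h.own_of _ _ _ _ hi hj
  · intro e
    rw [e] at t4
    obtain ⟨e1, e2⟩ := k2.uniq t4
    rw [ha] at e1 e2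
    rcases b with _ | ⟨x, _ | ⟨y, _ | ⟨z, b⟩⟩⟩
    · simp at e2
    · simp at e2
    · simp at e2
      exact ha2 (by simpa using e2.2.2)
    · simp at e1 e2
      obtain ⟨-, -, z1, -⟩ := e1
      obtain ⟨-, -, z2, -⟩ := e2
      rw [z2] at z1
      simp at z1
  · intro e
    rw [e] at t4
    obtain ⟨e1, e2⟩ := k5.uniq t4
    have e3 : true :: true :: a = b.map not ++ [true, false, true] := by
      have := congrArg (List.map not) e2
      simpa [Function.comp_def] using this.symm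
    rw [e1] at e3
    have e4 : b.map not ++ [true] = true :: b.map not := by
      have e5 : (b.map not ++ [true]) ++ [false, true] = (true :: b.map not) ++ [false, true] := by
        simpa using e3.symm
      exact List.append_cancel_right e5
    have e6 := list_rot e4
    have hY : Y ≠ .nil := by
      rintro rfl
      rw [hA, ht_node, ht] at hlow
      omega
    have hhY : ht Y = ht S := by
      rw [hA, ht_node] at hlow ⊢
      omega
    obtain ⟨aY, cY, g0, -⟩ := H1.FM.ex hY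
    have g1 := g0.app_left (P := A △ .nil) (by
      have n0 : Tsq.ht (BinaryTree.nil : BinaryTree Unit) = 0 := rfl
      rw [Tsq.ht_node, n0, H1.ht_eq, H1.ht_eq]; omega)
    have g2 : H1.FM S (wd (A △ .nil) ++ aY) (cY ++ false :: wd (Tsq.sq Y).2) := by
      rw [hA]; exact g1
    obtain ⟨g3, -⟩ := f0.uniq g2
    rw [g3, wd_node, e6] at e1
    have cA := wd_counts A
    have e7 := congrArg (List.count false) e1
    simp [wd, List.count_replicate] at e7
    have hA0 : A = .nil := num_nil (by omega)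
    have htY := g0.top
    have hY0 : aY.count false = 0 := by omega
    rw [hA0] at e1
    simp [wd] at e1
    have e8 := congrArg List.length e1
    simp at e8
    have hlY : aY.count true ≤ aY.length := List.count_le_length
    have eY : Tsq.ht Y = ht Y := H1.ht_eq Y
    obtain ⟨n, hn⟩ : ∃ n, b.length = n + 3 := ⟨b.length - 3, by omega⟩
    rw [hn] at e1
    simp [List.replicate_succ] at e1
  · intro e
    rw [e] at t5
    obtain ⟨e1, e2⟩ := k4.uniq t5
    rw [ha] at e1
    rcases b with _ | ⟨x, _ | ⟨y, b⟩⟩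
    · simp at e1
    · simp at e1
    · simp at e1 e2
      obtain ⟨-, z1, -⟩ := e1
      obtain ⟨-, z2, -⟩ := e2
      rw [z2] at z1
      simp at z1
  · intro e
    rw [e] at t5
    obtain ⟨e1, e2⟩ := k2.uniq t5
    rcases b with _ | ⟨x, _ | ⟨y, b⟩⟩
    · simp at e1
    · simp at e1
    · simp at e1 e2
      obtain ⟨-, z1, -⟩ := e1
      obtain ⟨-, z2, -⟩ := e2
      rw [z2] at z1
      simp at z1

/-- own inner words of the level 3 gadget, one bead on each side -/
theorem D9.own_1 (h : D9 (lp 1) (lp 1) S w) {i : ℕ} (hi : i = 3 ∨ i = 4 ∨ i = 5) {j : ℕ}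
    (hj : j < 9) : TT (w i) ≠ w j := by
  have h3 : 3 ≤ ht S := by
    have := h.hP
    change 1 + 2 ≤ ht S at this
    omega
  obtain ⟨a, b, f0, f1, k2, k4, k5, t4, t5⟩ := h.fm
  have hl1 : wd (lp 1) = [true, false] := rfl
  simp only [hl1, List.nil_append, List.map_nil, List.map_cons, List.map_append, Bool.not_true,
    Bool.not_false, List.cons_append] at k2 k4 k5 t4 t5
  have eS : Tsq.ht S = ht S := H1.ht_eq S
  have htop := f0.top
  obtain ⟨x1, x2, a', ha⟩ : ∃ x1 x2 a', a = x1 :: x2 :: a' := by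
    rcases a with _ | ⟨x, _ | ⟨y, a⟩⟩
    · simp at htop
      omega
    · have : ([x] : List Bool).count true ≤ 1 := List.count_le_length
      omega
    · exact ⟨x, y, a, rfl⟩
  have hx1 : x1 = true := by
    cases x1 with
    | true => rfl
    | false =>
      exfalso
      have h1 := wd_take S 1
      rw [f0.eq, ha] at h1
      simp at h1
  subst hx1
  apply h.own_of _ _ _ _ hi hj
  · intro e
    rw [e] at t4
    obtain ⟨e1, e2⟩ := k2.uniq t4
    rw [ha] at e1 e2
    rcases b with _ | ⟨y1, _ | ⟨y2, _ | ⟨y3, _ | ⟨y4, _ | ⟨y5, b⟩⟩⟩⟩⟩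
    · simp at e2
    · simp at e2
    · simp at e2
    · simp at e2
    · simp at e2
    · simp at e1 e2
      obtain ⟨-, -, -, -, z1, -⟩ := e1
      obtain ⟨-, -, -, -, z2, -⟩ := e2
      rw [z2] at z1
      simp at z1
  · intro e
    rw [e] at t4
    obtain ⟨e1, e2⟩ := k5.uniq t4
    rcases b with _ | ⟨y, b⟩
    · simp at f1
      omega
    · simp at e1
      obtain ⟨-, e1⟩ := e1
      rw [e1] at e2
      have e3 : ((y :: b) ++ [false, true, true]) ++ [false, false, true, false] =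
          (false :: true :: false :: false :: b) ++ [true, false, true, false] := by
        simpa [Function.comp_def] using e2
      have e4 := (List.append_inj' e3 rfl).2
      simp at e4
  · intro e
    rw [e] at t5
    obtain ⟨e1, e2⟩ := k4.uniq t5
    have e3 := not_inj e1.symm
    rw [e3, ha] at e2
    rcases a' with _ | ⟨y, a'⟩
    · simp at e2
    · simp at e2
      obtain ⟨rfl, rfl, -⟩ := e2
      have h1 := wd_take S 3
      rw [f0.eq, ha] at h1
      simp at h1
  · intro e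
    rw [e] at t5
    obtain ⟨e1, e2⟩ := k2.uniq t5
    rcases b with _ | ⟨x, _ | ⟨y, b⟩⟩
    · simp at e1
    · simp at e1
    · simp at e1 e2
      obtain ⟨-, z1, -⟩ := e1
      obtain ⟨-, z2, -⟩ := e2
      rw [z2] at z1
      simp at z1

/-- the inner words are not in the own gadget -/
def Own9 (k : ℕ) (P Q S : BinaryTree Unit) : Prop :=
  ∀ w : ℕ → X k, D9 P Q S w → ∀ i, (i = 3 ∨ i = 4 ∨ i = 5) → ∀ j < 9, TT (w i) ≠ w j

theorem own9_e (h3 : 3 ≤ ht S) {A Y : BinaryTree Unit} (hA : S = A △ Y)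
    (hlow : ht A + 1 < ht S) : Own9 k .nil .nil S :=
  fun _ h _ hi _ hj => h.own_e h3 hA hlow hi hj

theorem own9_1 : Own9 k (lp 1) (lp 1) S := fun _ h _ hi _ hj => h.own_1 hi hj

theorem Is9.path (h : Is9 P Q S F g) (ho : Own9 k P Q S) : ∀ a ∈ g.arcs, ∃ n : ℕ,
    (TT ^ (n + 1)) a.1 = a.2 ∧ a.1 ∈ g.B ∧
      ∀ i < n, (TT ^ (i + 1)) a.1 ∉ g.B ∧ (TT ^ (i + 1)) a.1 ∈ innA a := by
  obtain ⟨w, h1, rfl, rfl⟩ := h
  obtain ⟨a3, a4, a5⟩ := h1.arcs
  intro p hp
  have key : ∀ i j, (i = 3 ∨ i = 4 ∨ i = 5) → TT (TT (w i)) = w j → p = (w i, w j) →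
      ∃ n : ℕ, (TT ^ (n + 1)) p.1 = p.2 ∧ p.1 ∈ (gad9 w).B ∧
        ∀ i < n, (TT ^ (i + 1)) p.1 ∉ (gad9 w).B ∧ (TT ^ (i + 1)) p.1 ∈ innA p := by
    rintro i j hi e rfl
    refine ⟨1, ?_, mem_gad9.2 ⟨i, by omega, rfl⟩, ?_⟩
    · rw [pow_succ, pow_one, Perm.mul_apply]
      exact e
    · intro n hn
      obtain rfl : n = 0 := by omega
      rw [pow_one]
      refine ⟨?_, rfl⟩
      intro hB
      obtain ⟨l, hl, e1⟩ := mem_gad9.1 hB
      exact ho w h1 i hi l hl e1.symm
  rcases hp with e | e | e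
  · exact key 3 6 (by simp) a3 e
  · exact key 4 7 (by simp) a4 e
  · exact key 5 8 (by simp) a5 e

/-! ### The mirror -/

theorem ht_mir (t : BinaryTree Unit) : ht (Tsq.mir t) = ht t := by
  rw [← hgt_ht, ← hgt_ht, hgt_mir]

theorem mirX_mirX (x : X k) : Tsq.mirX (Tsq.mirX x) = x := Subtype.ext (Tsq.mir_mir x.1)

theorem cyc_mir_TT (x : X k) : cyc (Tsq.mirX (TT x)) = cyc (Tsq.mirX x) := by
  rw [← cyc_TT (Tsq.mirX (TT x)), Tsq.TT_mir]

theorem cyc_mir {x y : X k} (h : cyc x = cyc y) : cyc (Tsq.mirX x) = cyc (Tsq.mirX y) := by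
  have key : ∀ (n : ℕ) (x : X k), cyc (Tsq.mirX ((TT ^ n) x)) = cyc (Tsq.mirX x) := by
    intro n
    induction n with
    | zero => intro x; rfl
    | succ n ih =>
      intro x
      rw [pow_succ, Perm.mul_apply, ih, cyc_mir_TT]
  obtain ⟨n, hn⟩ := (cyc_eq.1 h).exists_pow_eq'
  rw [← hn.2, key]

/-- the data of a mirrored nine-word gadget -/
structure D9M (P Q S : BinaryTree Unit) (w : ℕ → X k) : Prop where
  hP : ht P + 2 ≤ ht S
  hQ : ht Q + 2 ≤ ht S
  two : ht S < S.numNodes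
  word : ∀ i < 9, (w i).1 = w9LM P Q S (xTM S) i
  new : cyc (w 0) ≠ cyc (w 1)

/-- the mirror image of the data -/
theorem D9M.mir (h : D9M P Q S w) :
    D9 (Tsq.mir Q) (Tsq.mir P) (Tsq.mir S) (fun i => Tsq.mirX (w i)) := by
  refine ⟨by rw [ht_mir, ht_mir]; exact h.hQ, by rw [ht_mir, ht_mir]; exact h.hP,
    by rw [ht_mir, Tsq.mir_num]; exact h.two, ?_, ?_⟩
  · intro i hi
    change Tsq.mir (w i).1 = _
    rw [h.word i hi]
    exact mir_w9LM P Q S (xT (Tsq.mir S)) i hi
  · intro e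
    apply h.new
    have e1 := cyc_mir e
    rw [mirX_mirX, mirX_mirX] at e1
    exact e1

theorem D9M.htw (h : D9M P Q S w) {i : ℕ} (hi : i < 9) : htc (cyc (w i)) =
    if i < 2 then ht S else if i = 3 ∨ i = 6 then ht S + 2 else ht S + 1 := by
  have h1 := h.mir.htw hi
  rw [htc_cyc] at h1 ⊢
  change ht (Tsq.mir (w i).1) = _ at h1
  rw [ht_mir, ht_mir] at h1
  exact h1

theorem D9M.ne (h : D9M P Q S w) : S ≠ .nil := by
  have := h.hP
  exact ne_of_ht (h := 0) (by omega)

theorem D9M.old (h : D9M P Q S w) {i : ℕ} (h2 : 2 ≤ i) (hi : i < 9) : ht S < htc (cyc (w i)) := by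
  rw [h.htw hi]
  split_ifs <;> omega

theorem D9M.inj (h : D9M P Q S w) : ∀ i < 9, ∀ j < 9, w i = w j → i = j := by
  intro i hi j hj e
  exact h.mir.inj i hi j hj (by rw [e])

theorem D9M.size (h : D9M P Q S w) : P.numNodes + Q.numNodes + S.numNodes + 2 = k := by
  have := h.mir.size
  rw [Tsq.mir_num, Tsq.mir_num, Tsq.mir_num] at this
  omega

theorem D9M.abs (h : D9M P Q S w) : (gad9M w).Abs := by
  refine gad9LM_abs h.ne h.size h.word h.inj ?_ ?_
  · intro e
    exact h.new (cyc_eq.2 e)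
  · intro i h2 hi
    have h3 := h.old h2 hi
    constructor
    · intro e
      have e1 : cyc (w 0) = cyc (w i) := cyc_eq.2 e
      rw [← e1, h.htw (by norm_num)] at h3
      simp at h3
    · intro e
      have e1 : cyc (w 1) = cyc (w i) := cyc_eq.2 e
      rw [← e1, h.htw (by norm_num)] at h3
      simp at h3

theorem D9M.arcs (h : D9M P Q S w) : TT (TT (w 6)) = w 3 ∧ TT (TT (w 7)) = w 4 ∧
    TT (TT (w 8)) = w 5 := by
  have h1 := h.hP
  have h2 := h.hQ
  exact arcs9LM h.ne (by rw [hgt_ht, hgt_ht]; omega) (by rw [hgt_ht, hgt_ht]; omega) h.word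

/-- the inner word of a mirrored arc is the mirror image of the inner word -/
theorem D9M.inner (h : D9M P Q S w) : TT (w 6) = Tsq.mirX (TT (Tsq.mirX (w 3))) ∧
    TT (w 7) = Tsq.mirX (TT (Tsq.mirX (w 4))) ∧ TT (w 8) = Tsq.mirX (TT (Tsq.mirX (w 5))) := by
  obtain ⟨a3, a4, a5⟩ := h.mir.arcs
  refine ⟨?_, ?_, ?_⟩
  · have := Tsq.TT_mir (TT (Tsq.mirX (w 3)))
    rw [a3, mirX_mirX] at this
    exact this
  · have := Tsq.TT_mir (TT (Tsq.mirX (w 4)))
    rw [a4, mirX_mirX] at this
    exact this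
  · have := Tsq.TT_mir (TT (Tsq.mirX (w 5)))
    rw [a5, mirX_mirX] at this
    exact this

/-- TYPE 9, mirror -/
def Is9M (P Q S : BinaryTree Unit) (F : Set (Cyc k)) (g : DG k) : Prop :=
  ∃ w : ℕ → X k, D9M P Q S w ∧ F = {cyc (w 0), cyc (w 1)} ∧ g = gad9M w

theorem mem_gad9M {w : ℕ → X k} {x : X k} : x ∈ (gad9M w).B ↔ ∃ i < 9, w i = x := by
  classical
  change x ∈ (range 9).image w ↔ _
  rw [Finset.mem_image]
  constructor
  · rintro ⟨i, hi, rfl⟩; exact ⟨i, Finset.mem_range.1 hi, rfl⟩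
  · rintro ⟨i, hi, rfl⟩; exact ⟨i, Finset.mem_range.2 hi, rfl⟩

theorem Is9M.hF (h : Is9M P Q S F g) : ∀ w, w ∈ g.F ↔ cyc w ∈ F := by
  obtain ⟨w, h1, rfl, rfl⟩ := h
  intro x
  change (TT.SameCycle (w 0) x ∨ TT.SameCycle (w 1) x) ↔ (cyc x = _ ∨ cyc x = _)
  rw [← cyc_eq, ← cyc_eq]
  constructor
  · rintro (e | e)
    · exact Or.inl e.symm
    · exact Or.inr e.symm
  · rintro (e | e)
    · exact Or.inl e.symm
    · exact Or.inr e.symm

theorem Is9M.new (h : Is9M P Q S F g) : ∀ c ∈ F, ∃ u ∈ g.B, cyc u = c := by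
  obtain ⟨w, h1, rfl, rfl⟩ := h
  rintro c (rfl | rfl)
  · exact ⟨_, mem_gad9M.2 ⟨0, by norm_num, rfl⟩, rfl⟩
  · exact ⟨_, mem_gad9M.2 ⟨1, by norm_num, rfl⟩, rfl⟩

theorem Is9M.htp' (h : Is9M P Q S F g) : ∀ c ∈ F, htc c = ht S := by
  obtain ⟨w, h1, rfl, rfl⟩ := h
  rintro c (rfl | rfl)
  · rw [h1.htw (by norm_num)]; rfl
  · rw [h1.htw (by norm_num)]; rfl

theorem Is9M.htp (h : Is9M P Q S F g) : ∀ c ∈ F, ∀ d ∈ F, htc c = htc d := by
  intro c hc d hd
  rw [h.htp' c hc, h.htp' d hd]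

theorem Is9M.rank (h : Is9M P Q S F g) : ∀ w ∈ g.B, cyc w ∈ F ∨ ∀ c ∈ F, htc c < htc (cyc w) := by
  have h2 := h.htp'
  obtain ⟨w, h1, rfl, rfl⟩ := h
  intro x hx
  obtain ⟨i, hi, rfl⟩ := mem_gad9M.1 hx
  rcases Nat.lt_or_ge i 2 with h3 | h3
  · left
    interval_cases i
    · exact Or.inl rfl
    · exact Or.inr rfl
  · right
    intro c hc
    rw [h2 c hc]
    exact h1.old h3 hi

theorem Is9M.old (h : Is9M P Q S F g) : ∃ u ∈ g.B, cyc u ∉ F := by
  have h2 := h.htp'
  obtain ⟨w, h1, rfl, rfl⟩ := h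
  refine ⟨_, mem_gad9M.2 ⟨2, by norm_num, rfl⟩, ?_⟩
  intro hc
  have h3 := h1.old (i := 2) (by norm_num) (by norm_num)
  rw [h2 _ hc] at h3
  exact lt_irrefl _ h3

theorem Is9M.abs (h : Is9M P Q S F g) : g.Abs := by
  obtain ⟨w, h1, rfl, rfl⟩ := h
  exact h1.abs

/-- the words of the gadget -/
theorem Is9M.words (h : Is9M P Q S F g) : ∀ w ∈ g.B, ∃ i < 9, w.1 = w9LM P Q S (xTM S) i ∧
    (i < 2 → cyc w ∈ F) := by
  obtain ⟨w, h1, rfl, rfl⟩ := h
  intro x hx
  obtain ⟨i, hi, rfl⟩ := mem_gad9M.1 hx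
  refine ⟨i, hi, h1.word i hi, ?_⟩
  intro h3
  interval_cases i
  · exact Or.inl rfl
  · exact Or.inr rfl

theorem Is9M.path (h : Is9M P Q S F g) (ho : Own9 k (Tsq.mir Q) (Tsq.mir P) (Tsq.mir S)) :
    ∀ a ∈ g.arcs, ∃ n : ℕ, (TT ^ (n + 1)) a.1 = a.2 ∧ a.1 ∈ g.B ∧
      ∀ i < n, (TT ^ (i + 1)) a.1 ∉ g.B ∧ (TT ^ (i + 1)) a.1 ∈ innA a := by
  obtain ⟨w, h1, rfl, rfl⟩ := h
  obtain ⟨a3, a4, a5⟩ := h1.arcs
  obtain ⟨n3, n4, n5⟩ := h1.inner
  intro p hp
  have key : ∀ i j, (i = 3 ∨ i = 4 ∨ i = 5) → j < 9 → TT (TT (w j)) = w i →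
      TT (w j) = Tsq.mirX (TT (Tsq.mirX (w i))) → p = (w j, w i) →
      ∃ n : ℕ, (TT ^ (n + 1)) p.1 = p.2 ∧ p.1 ∈ (gad9M w).B ∧
        ∀ i < n, (TT ^ (i + 1)) p.1 ∉ (gad9M w).B ∧ (TT ^ (i + 1)) p.1 ∈ innA p := by
    rintro i j hi hj e en rfl
    refine ⟨1, ?_, mem_gad9M.2 ⟨j, hj, rfl⟩, ?_⟩
    · rw [pow_succ, pow_one, Perm.mul_apply]
      exact e
    · intro n hn
      obtain rfl : n = 0 := by omega
      rw [pow_one]
      refine ⟨?_, rfl⟩
      intro hB
      obtain ⟨l, hl, e1⟩ := mem_gad9M.1 hB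
      apply ho _ h1.mir i hi l hl
      rw [e1]
      change _ = Tsq.mirX (TT (w j))
      rw [en, mirX_mirX]
  rcases hp with e | e | e
  · exact key 3 6 (by simp) (by norm_num) a3 n3 e
  · exact key 4 7 (by simp) (by norm_num) a4 n4 e
  · exact key 5 8 (by simp) (by norm_num) a5 n5 e

end Pool.OddHC
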