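import Pool.Agent.Work.MP_8f87b2_h54.JVmj
import Pool.Agent.Work.MP_8f87b2_h21.JVns
import Pool.Agent.Work.MP_8f87b2_h43.JVW
import Pool.Agent.Work.MP_8f87b2_h16.MV
import Pool.Agent.Work.MP_8f87b2_h37.JVi3

/-!
# MP_8f87b2_co: right and mirrored pair gadgets `JV = Is9 nil nil S`, `JVm = Is9M nil nil S`

W-JV-JVm (`dj_JVm`, hypothesis `xT S ≠ xTM S'`), W-JVm-JVm (`dj_JVmm`), and for the phase rule `TE` the rows I-JV-JVm
(`Is9.inner_JVm_te`), I-JVm-JV and I-JVm-JVm (`Is9M.inner_JV_te`).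
-/

set_option autoImplicit false

namespace Pool.OddHC

open Finset Equiv BinaryTree Pool.Agent.Work.MP_8f87b2_co

variable {k : ℕ} {F F' : Set (Cyc k)} {g g' : DG k} {S S' : BinaryTree Unit}

namespace JVX

open JVW

/-- a prime word does not begin with a shorter balanced word -/
theorem no_pre {Y : BinaryTree Unit} {U V : BinaryTree Unit} (hU : U ≠ .nil) (hV : V ≠ .nil)
    (e : Y △ .nil = app U V) : False := by
  have e1 := congrArg (fun t => (comps t).length) e
  have h1 := List.length_pos_iff.2 (comps_ne hU)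
  have h2 := List.length_pos_iff.2 (comps_ne hV)
  simp only [comps_app, List.length_append] at e1
  have e2 : (comps (Y △ .nil)).length = 1 := rfl
  omega

/-- `T(S(()))` is not prime -/
theorem T0 (hT : JVI.TE S) (h3 : 3 ≤ ht S) {x : X k} (hx : x.1 = app S ((.nil △ .nil) △ .nil))
    {Y : BinaryTree Unit} : (TT x).1 ≠ Y △ .nil := by
  intro e
  have hS : S ≠ .nil := ne_of_ht (h := 2) (by omega)
  obtain ⟨a, b, fm⟩ := JV.FM_exists hS
  obtain ⟨l, A, hA⟩ := hT a b fm
  have k1 := fm.app_right (Z := (.nil △ .nil) △ .nil) (by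
    rw [H1.ht_eq, H1.ht_eq]
    have : ht ((.nil △ .nil) △ .nil : BinaryTree Unit) = 2 := rfl
    omega)
  rw [← hx] at k1
  have k2 := k1.wdT
  rw [e, hA] at k2
  refine JVI.prime_cut (X := Y) (A := A)
    (P := (b ++ wd ((.nil △ .nil) △ .nil : BinaryTree Unit)).map not ++ (false :: l)) (by rw [k2]; simp) ?_
  intro h0
  simp at h0

/-- `T((())S)` is not prime -/
theorem T1 (hT : JVI.TE S) (h3 : 3 ≤ ht S) {x : X k} (hx : x.1 = (.nil △ .nil) △ S)
    {Y : BinaryTree Unit} : (TT x).1 ≠ Y △ .nil := by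
  intro e
  have hS : S ≠ .nil := ne_of_ht (h := 2) (by omega)
  obtain ⟨a, b, fm⟩ := JV.FM_exists hS
  obtain ⟨l, A, hA⟩ := hT a b fm
  have k1 := fm.app_left (P := (.nil △ .nil) △ .nil) (by
    rw [H1.ht_eq, H1.ht_eq]
    have : ht ((.nil △ .nil) △ .nil : BinaryTree Unit) = 2 := rfl
    omega)
  have e0 : app ((.nil △ .nil) △ .nil) S = (.nil △ .nil) △ S := rfl
  rw [e0, ← hx] at k1
  have k2 := k1.wdT
  rw [e, List.map_append, hA] at k2
  refine JVI.prime_cut (X := Y) (A := A)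
    (P := b.map not ++ (false :: ((wd ((.nil △ .nil) △ .nil : BinaryTree Unit)).map not ++ l))) (by rw [k2]; simp) ?_
  intro h0
  simp at h0

/-- `T(((S)))` is not prime -/
theorem T3 (hT : JVI.TE S) (h3 : 3 ≤ ht S) {x : X k} (hx : x.1 = (S △ .nil) △ .nil)
    {Y : BinaryTree Unit} : (TT x).1 ≠ Y △ .nil := by
  intro e
  have hS : S ≠ .nil := ne_of_ht (h := 2) (by omega)
  obtain ⟨a, b, fm⟩ := JV.FM_exists hS
  obtain ⟨l, A, hA⟩ := hT a b fm
  have k2 := JV.wd3 hx fm
  rw [e, hA] at k2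
  refine JVI.prime_cut (X := Y) (A := A)
    (P := b.map not ++ (true :: true :: false :: false :: false :: l)) (by rw [k2]; simp) ?_
  intro h0
  simp at h0

/-- `T^3(((S)))` is not prime -/
theorem T6 (hT : JVI.TE S) (h3 : 3 ≤ ht S) {x : X k} (hx : x.1 = (S △ .nil) △ .nil)
    {Y : BinaryTree Unit} : (TT (TT (TT x))).1 ≠ Y △ .nil := by
  intro e
  have hS : S ≠ .nil := ne_of_ht (h := 2) (by omega)
  obtain ⟨a, b, fm⟩ := JV.FM_exists hS
  obtain ⟨l, A, hA⟩ := hT a b fm
  have k2 := JV.wd3 hx fm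
  have k3 := JV.FM3 hx fm
  rw [hA] at k2
  obtain ⟨U, hU, hUw⟩ := JVI.suffix_tree (t := (TT x).1) (A := A △ .nil)
    (l := b.map not ++ (true :: true :: false :: false :: false :: l)) (by rw [k2]; simp)
  have hU0 : U ≠ .nil := by
    rintro rfl
    have := congrArg List.length hUw
    simp [wd] at this
  have hZ : Tsq.ht (A △ .nil) ≤ Tsq.ht U := by
    by_contra hc
    push Not at hc
    have hA0 : A △ .nil ≠ (.nil : BinaryTree Unit) := by simp
    obtain ⟨a', b', fm'⟩ := JV.FM_exists hA0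
    have k4 := fm'.app_left hc
    rw [← hU] at k4
    have k5 := congrArg List.length (k3.uniq k4).1
    rw [hUw] at k5
    simp at k5
  have hne : (TT x).1 ≠ .nil := by rw [hU]; exact Tsq.app_ne_nil hU0
  have k6 := Tsq.TT_sq (TT x) hne
  rw [hU, Tsq.sq_app U _ hU0 hZ, e] at k6
  refine no_pre (Y := Y) (U := app (Tsq.sq U).2 (A △ .nil)) (V := (Tsq.sq U).1) ?_ (Tsq.sq_ne hU0) k6
  cases (Tsq.sq U).2 <;> simp [app]

/-- the old words of a mirrored gadget -/
def OldM (S w : BinaryTree Unit) : Prop :=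
  comps w = [app S (.nil △ .nil)] ∨ comps w = [S △ .nil] ∨ comps w = [.nil △ S] ∨
    comps w = [.nil, S] ∨ comps w = [xTM S] ∨ comps w = .nil :: comps (xTM S) ∨
    comps w = comps (xTM S) ++ [.nil]

theorem wordsM (h : Is9M .nil .nil S F g) : ∀ w ∈ g.B, (cyc w ∈ F ∧ NewW S w.1) ∨ OldM S w.1 := by
  intro w hw
  obtain ⟨i, hi, e, h2⟩ := MV.words h w hw
  obtain ⟨c0, c1, c2, c3, c4, c5, c6, c7, c8⟩ := MV.cw S (xTM S)
  interval_cases i
  · exact Or.inl ⟨h2 (by norm_num), Or.inr (by rw [e, c0])⟩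
  · exact Or.inl ⟨h2 (by norm_num), Or.inl (by rw [e, c1])⟩
  · exact Or.inr (Or.inl (by rw [e, c2]))
  · exact Or.inr (Or.inr (Or.inl (by rw [e, c3])))
  · exact Or.inr (Or.inr (Or.inr (Or.inl (by rw [e, c4]))))
  · exact Or.inr (Or.inr (Or.inr (Or.inr (Or.inl (by rw [e, c5])))))
  · exact Or.inr (Or.inr (Or.inr (Or.inr (Or.inr (Or.inl (by rw [e, c6]))))))
  · exact Or.inr (Or.inr (Or.inr (Or.inr (Or.inr (Or.inr (Or.inl (by rw [e, c7])))))))
  · exact Or.inr (Or.inr (Or.inr (Or.inr (Or.inr (Or.inr (Or.inr (by rw [e, c8])))))))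

/-- equal phases -/
theorem ov_same (h : Is9 .nil .nil S F g) (h' : Is9M .nil .nil S' F' g') (e : S = S') :
    ∃ c ∈ F, c ∈ F' := by
  subst e
  obtain ⟨w, h1, rfl, rfl⟩ := h
  obtain ⟨w', h1', rfl, rfl⟩ := h'
  refine ⟨cyc (w 0), Or.inl rfl, Or.inr ?_⟩
  have e1 : w 0 = w' 1 := by
    apply Subtype.ext
    rw [h1.word 0 (by norm_num), h1'.word 1 (by norm_num), MV.w9LM_W _ _ (by norm_num)]
    rfl
  rw [e1]
  rfl

/-- `X = (S')`: the groups meet -/
theorem ov_sq (h : Is9 .nil .nil S F g) (h' : Is9M .nil .nil S' F' g')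
    (e : (Tsq.sq S).1 △ (Tsq.sq S).2 = S' △ .nil) : ∃ c ∈ F, c ∈ F' := by
  have hh := ht3 h
  have hS := ne h
  obtain ⟨w, h1, rfl, rfl⟩ := h
  obtain ⟨w', h1', rfl, rfl⟩ := h'
  refine ⟨cyc (w 0), Or.inl rfl, Or.inl ?_⟩
  have ez : (w 0).1 = app S ((.nil △ .nil) △ .nil) := h1.word 0 (by norm_num)
  have hn : (w 0).1 ≠ .nil := by rw [ez]; exact Tsq.app_ne_nil hS
  have e1 : (TT (TT (w 0))).1 = (w' 0).1 := by
    rw [Tsq.TT_sq _ hn, ez, Tsq.sq_app _ _ hS (by
      rw [H1.ht_eq, H1.ht_eq]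
      have : ht ((.nil △ .nil) △ .nil : BinaryTree Unit) = 2 := rfl
      omega)]
    injection e with _ e2 e3
    change app (app (Tsq.sq S).2 _) (Tsq.sq S).1 = _
    rw [e3, e2, h1'.word 0 (by norm_num), MV.w9LM_W _ _ (by norm_num)]
    rfl
  have e2 : TT (TT (w 0)) = w' 0 := Subtype.ext e1
  have e3 : cyc (w' 0) = cyc (w 0) := by rw [← e2, cyc_TT, cyc_TT]
  exact e3.symm

/-- `X~ = (S)`: the groups meet -/
theorem ov_sqM (h : Is9 .nil .nil S F g) (h' : Is9M .nil .nil S' F' g')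
    (e : xTM S' = S △ .nil) : ∃ c ∈ F, c ∈ F' := by
  obtain ⟨w, h1, rfl, rfl⟩ := h
  obtain ⟨w', h1', rfl, rfl⟩ := h'
  have hm := h1'.mir
  have hS' : Tsq.mir S' ≠ .nil := hm.ne
  have hh : 2 ≤ ht (Tsq.mir S') := by
    have := hm.hP
    omega
  refine ⟨cyc (w 0), Or.inl rfl, Or.inl ?_⟩
  have ez : (Tsq.mirX (w' 0)).1 = app (Tsq.mir S') ((.nil △ .nil) △ .nil) := hm.word 0 (by norm_num)
  have hn : (Tsq.mirX (w' 0)).1 ≠ .nil := by rw [ez]; exact Tsq.app_ne_nil hS'
  have ex : xT (Tsq.mir S') = Tsq.mir S △ .nil := by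
    have e5 := congrArg Tsq.mir e
    unfold xTM at e5
    rw [Tsq.mir_mir, Tsq.mir_node] at e5
    exact e5
  have e1 : (TT (TT (Tsq.mirX (w' 0)))).1 = (Tsq.mirX (w 0)).1 := by
    rw [Tsq.TT_sq _ hn, ez, Tsq.sq_app _ _ hS' (by
      rw [H1.ht_eq, H1.ht_eq]
      have : ht ((.nil △ .nil) △ .nil : BinaryTree Unit) = 2 := rfl
      omega)]
    rw [xT_sq] at ex
    injection ex with _ e2 e3
    change app (app (Tsq.sq (Tsq.mir S')).2 _) (Tsq.sq (Tsq.mir S')).1 = Tsq.mir (w 0).1
    rw [e3, e2, h1.word 0 (by norm_num)]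
    change (.nil △ .nil) △ Tsq.mir S = Tsq.mir (app S ((.nil △ .nil) △ .nil))
    rw [Tsq.mir_app]
    rfl
  have e2 : TT (TT (Tsq.mirX (w' 0))) = Tsq.mirX (w 0) := Subtype.ext e1
  have e3 : cyc (Tsq.mirX (w 0)) = cyc (Tsq.mirX (w' 0)) := by rw [← e2, cyc_TT, cyc_TT]
  have e4 := cyc_mir e3
  rw [mirX_mirX, mirX_mirX] at e4
  exact e4

theorem oldM_one {w A : BinaryTree Unit} (hX : xTM S ≠ .nil) (h : OldM S w)
    (e : comps w = [A]) :
    A = app S (.nil △ .nil) ∨ A = S △ .nil ∨ A = .nil △ S ∨ A = xTM S := by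
  rcases h with h | h | h | h | h | h | h <;> rw [e] at h
  · exact Or.inl (List.cons.inj h).1
  · exact Or.inr (Or.inl (List.cons.inj h).1)
  · exact Or.inr (Or.inr (Or.inl (List.cons.inj h).1))
  · exact absurd (congrArg List.length h) (by simp)
  · exact Or.inr (Or.inr (Or.inr (List.cons.inj h).1))
  · exfalso
    have h1 := congrArg List.length h
    simp at h1
    exact comps_ne hX h1
  · exfalso
    have h1 := congrArg List.length h
    simp at h1
    exact comps_ne hX h1

theorem oldM_fst {w : BinaryTree Unit} {L : List (BinaryTree Unit)} (hX : xTM S ≠ .nil)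
    (hXn : .nil ∉ comps (xTM S)) (hS : S ≠ .nil) (h : OldM S w) (e : comps w = .nil :: L) :
    L = [S] ∨ L = comps (xTM S) := by
  rcases h with h | h | h | h | h | h | h <;> rw [e] at h
  · exact absurd (List.cons.inj h).1.symm (Tsq.app_ne_nil hS)
  · exact absurd (List.cons.inj h).1 (by simp)
  · exact absurd (List.cons.inj h).1 (by simp)
  · exact Or.inl (List.cons.inj h).2
  · exact absurd (List.cons.inj h).1.symm hX
  · exact Or.inr (List.cons.inj h).2
  · exfalso
    obtain ⟨A, L', eA⟩ := cne hX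
    rw [eA, List.cons_append] at h
    apply hXn
    rw [eA, ← (List.cons.inj h).1]
    simp

theorem oldM_last {w : BinaryTree Unit} {L : List (BinaryTree Unit)} (hX : xTM S ≠ .nil)
    (hXn : .nil ∉ comps (xTM S)) (hS : S ≠ .nil) (h : OldM S w) (e : comps w = L ++ [.nil]) :
    L = comps (xTM S) := by
  have one : ∀ A : BinaryTree Unit, L ++ [.nil] = [A] → A = .nil := by
    intro A e1
    have e2 := congrArg List.getLast? e1
    simpa using e2.symm
  rcases h with h | h | h | h | h | h | h <;> rw [e] at h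
  · exact absurd (one _ h) (Tsq.app_ne_nil hS)
  · exact absurd (one _ h) (by simp)
  · exact absurd (one _ h) (by simp)
  · exfalso
    have e2 := congrArg List.getLast? h
    simp at e2
    exact hS e2.symm
  · exact absurd (one _ h) hX
  · exfalso
    obtain ⟨L', A, eA⟩ := cne' hX
    rw [eA] at h
    have e2 := congrArg List.getLast? h
    rw [← List.cons_append, List.getLast?_concat, List.getLast?_concat] at e2
    apply hXn
    rw [eA]
    simp at e2
    rw [← e2]
    simp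
  · exact List.append_cancel_right h

/-- **W-JV-JVm** : the only other common words are `(X)`, `X()`, `()X` with `X = xT S = xTM S'` -/
theorem dj_JVm (h : Is9 .nil .nil S F g) (h' : Is9M .nil .nil S' F' g')
    (h3' : 3 ≤ ht S') (h1 : (cont S).count 1 = 0) (h1' : (cont S').count 1 = 0)
    (hd : ∀ c ∈ F, c ∉ F') (hX : xT S ≠ xTM S') : ∀ w ∈ g.B, w ∉ g'.B := by
  have hh := ht3 h
  have hS := ne h
  have m' := MV.MF.of h3' h1'
  have hS' := m'.Sne
  have hX' := m'.Xne
  have hXn' := m'.Xn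
  have hN : NBc S := fun A hA e => MV.nil_mem h1 (e ▸ hA)
  have hN' : NBc S' := fun A hA e => MV.nil_mem h1' (e ▸ hA)
  have hd1 : ¬ ∃ c ∈ F, c ∈ F' := fun ⟨c, h1, h2⟩ => hd c h1 h2
  -- new words have no component `()` and at least two components
  have new2 : ∀ T w : BinaryTree Unit, T ≠ .nil → NewW T w → ∀ A, comps w = [A] → False := by
    intro T w hT h1 A e
    have h2 := List.length_pos_iff.2 (comps_ne hT)
    rcases h1 with h1 | h1 <;> rw [e] at h1 <;> have := congrArg List.length h1 <;> simp at this <;>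
      exact comps_ne hT this
  have newN : ∀ T w : BinaryTree Unit, NBc T → NewW T w → .nil ∉ comps w := by
    intro T w hT h1 h2
    rcases h1 with h1 | h1 <;> rw [h1] at h2 <;> simp at h2 <;> exact hT _ h2 rfl
  intro w hw hw'
  rcases words h w hw with ⟨c1, c2⟩ | c2
  · rcases wordsM h' w hw' with ⟨d1, d2⟩ | d2
    · exact hd _ c1 d1
    · rcases d2 with d | d | d | d | d | d | d
      · exact new2 _ _ hS c2 _ d
      · exact new2 _ _ hS c2 _ d
      · exact new2 _ _ hS c2 _ d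
      · exact newN _ _ hN c2 (by rw [d]; simp)
      · exact new2 _ _ hS c2 _ d
      · exact newN _ _ hN c2 (by rw [d]; simp)
      · exact newN _ _ hN c2 (by rw [d]; simp)
  · rcases wordsM h' w hw' with ⟨d1, d2⟩ | d2
    · rcases c2 with d | d | d | d | d | d | d
      · exact new2 _ _ hS' d2 _ d
      · exact new2 _ _ hS' d2 _ d
      · exact new2 _ _ hS' d2 _ d
      · exact newN _ _ hN' d2 (by rw [d]; simp)
      · exact new2 _ _ hS' d2 _ d
      · exact newN _ _ hN' d2 (by rw [d]; simp)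
      · exact newN _ _ hN' d2 (by rw [d]; simp)
    · -- old against old
      have one : ∀ A : BinaryTree Unit, comps w.1 = [A] → False := by
        intro A e
        have nn : ∀ T U : BinaryTree Unit, NBc U → U ≠ .nil → .nil △ T ≠ app U (.nil △ .nil) := by
          intro T U hU hU0 e
          have e1 := congrArg comps e
          obtain ⟨A, L, eA⟩ := cne hU0
          rw [comps_app, eA, comps_node, List.cons_append, List.cons.injEq] at e1
          exact hU.head eA e1.1.symm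
        have ln : ∀ T U : BinaryTree Unit, U ≠ .nil → T △ .nil ≠ app U (.nil △ .nil) := by
          intro T U hU0 e
          have e1 := congrArg (fun t => (comps t).length) e
          have h5 := List.length_pos_iff.2 (comps_ne hU0)
          simp [comps_app, comps] at e1
          exact comps_ne hU0 e1
        have lx : ∀ T U : BinaryTree Unit, NBc U → 2 ≤ ht U →
            app T (.nil △ .nil) ≠ (Tsq.sq U).1 △ (Tsq.sq U).2 := by
          intro T U hU hU0 e
          have e1 := congrArg comps e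
          rw [comps_app, comps_node] at e1
          exact last_X hU hU0 e1.symm
        have bx : ∀ T : BinaryTree Unit, .nil △ T ≠ xTM S' := by
          intro T e
          apply hXn'
          rw [← e]
          simp [comps]
        have xb : ∀ T : BinaryTree Unit, app T (.nil △ .nil) ≠ xTM S' := by
          intro T e
          apply hXn'
          rw [← e, comps_app]
          simp [comps]
        rcases old_one hS c2 e with h1 | h1 | h1 | h1 <;>
          rcases oldM_one hX' d2 e with h2 | h2 | h2 | h2 <;> rw [h1] at h2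
        · exact nn _ _ hN' hS' h2
        · injection h2 with _ e1 e2; exact hS e2
        · exact hd1 (ov_same h h' (by simpa using h2))
        · exact bx _ h2
        · exact ln _ _ hS' h2
        · exact hd1 (ov_same h h' (by simpa using h2))
        · injection h2 with _ e1 e2; exact hS e1
        · exact hd1 (ov_sqM h h' h2.symm)
        · have e1 := congrArg comps h2
          rw [comps_app, comps_app] at e1
          exact hd1 (ov_same h h' (comps_inj (List.append_cancel_right e1)))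
        · exact ln _ _ hS h2.symm
        · exact nn _ _ hN hS h2.symm
        · exact xb _ h2
        · exact lx _ _ hN hh h2.symm
        · exact hd1 (ov_sq h h' h2)
        · injection h2 with _ e1 e2; exact (sq1 hh).2.1 e1
        · exact hX (by rw [xT_sq, h2])
      rcases c2 with c3 | c3 | c3 | c3 | c3 | c3 | c3
      · exact one _ c3
      · exact one _ c3
      · exact one _ c3
      · have h2 := oldM_last hX' hXn' hS' d2 (L := [S]) c3
        exact hd1 (ov_sqM h h' (comps_inj (by rw [← h2]; rfl)))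
      · exact one _ c3
      · have h2 := oldM_last hX' hXn' hS' d2 (c3.trans (List.cons_append).symm)
        exact hX (comps_inj (by rw [comps_xT, h2]))
      · rcases oldM_fst hX' hXn' hS' d2 c3 with h2 | h2
        · exact hd1 (ov_sq h h' (comps_inj (by rw [comps_node, h2]; rfl)))
        · exact hX (comps_inj (by rw [comps_xT, h2]))

/-- the mirror image of a mirrored gadget -/
theorem toR (h : Is9M .nil .nil S F g) : ∃ (F1 : Set (Cyc k)) (g1 : DG k),
    Is9 .nil .nil (Tsq.mir S) F1 g1 ∧ (∀ w ∈ g.B, Tsq.mirX w ∈ g1.B) ∧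
    ∀ c ∈ F1, ∃ x : X k, c = cyc (Tsq.mirX x) ∧ cyc x ∈ F := by
  obtain ⟨w, h1, rfl, rfl⟩ := h
  refine ⟨_, _, ⟨fun i => Tsq.mirX (w i), h1.mir, rfl, rfl⟩, ?_, ?_⟩
  · intro v hv
    obtain ⟨i, hi, rfl⟩ := mem_gad9M.1 hv
    exact mem_gad9.2 ⟨i, hi, rfl⟩
  · rintro c (rfl | rfl)
    · exact ⟨w 0, rfl, Or.inl rfl⟩
    · exact ⟨w 1, rfl, Or.inr rfl⟩

/-- **W-JVm-JVm** -/
theorem dj_JVmm (h : Is9M .nil .nil S F g) (h' : Is9M .nil .nil S' F' g')
    (h1 : (cont S).count 1 = 0) (h1' : (cont S').count 1 = 0)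
    (hd : ∀ c ∈ F, c ∉ F') : ∀ w ∈ g.B, w ∉ g'.B := by
  obtain ⟨F1, g1, k1, k2, k3⟩ := toR h
  obtain ⟨F2, g2, l1, l2, l3⟩ := toR h'
  have hN : NBc (Tsq.mir S) := fun A hA e => MV.nil_mem (by rw [MV.cont_mir9]; exact h1) (e ▸ hA)
  have hN' : NBc (Tsq.mir S') := fun A hA e => MV.nil_mem (by rw [MV.cont_mir9]; exact h1') (e ▸ hA)
  intro w hw hw'
  refine dj_JV k1 hN l1 hN' ?_ _ (k2 w hw) (l2 w hw')
  intro c hc hc'
  obtain ⟨x, e1, e2⟩ := k3 c hc
  obtain ⟨y, e3, e4⟩ := l3 c hc'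
  have e5 := cyc_mir (e1.symm.trans e3)
  rw [mirX_mirX, mirX_mirX] at e5
  exact hd _ e2 (by rw [e5]; exact e4)

/-- only one point of maximal level -/
def OneMax (t : BinaryTree Unit) : Prop :=
  ∀ p s p' s' : List Bool, wd t = p ++ s → wd t = p' ++ s' → p.count true = p.count false + Tsq.ht t →
    p'.count true = p'.count false + Tsq.ht t → p = p'

/-- `TE S`, and `xTM S'` is not prime or has only one maximum: `xT S ≠ xTM S'` -/
theorem xT_ne (h3 : 3 ≤ ht S) (h3' : 3 ≤ ht S') (hT : JVI.TE S)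
    (hc : (∃ A, xTM S' = A △ .nil) → OneMax (xTM S')) : xT S ≠ xTM S' := by
  intro e
  have hS : S ≠ .nil := ne_of_ht (h := 2) (by omega)
  have hS' : S' ≠ .nil := ne_of_ht (h := 2) (by omega)
  have hm' : Tsq.mir S' ≠ .nil := mir_ne hS'
  have hh : ht S = ht S' := by
    have e1 := congrArg ht e
    rw [ht_xT hS] at e1
    unfold xTM at e1
    rw [ht_mir, ht_xT hm', ht_mir] at e1
    omega
  have eM := MV.xTM_eq S'
  -- the second part of `sq (mir S')` is empty
  have hB : Tsq.mir (Tsq.sq (Tsq.mir S')).2 = .nil := by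
    by_contra hne
    obtain ⟨A, L, eA⟩ := cne hne
    have e2 := congrArg comps e
    rw [comps_xT, eM, comps_app, eA, List.cons_append] at e2
    have e3 := (List.cons.inj e2).1
    have e4 : ht (Tsq.mir (Tsq.sq (Tsq.mir S')).2) ≤ ht S' := by
      rw [ht_mir]
      have := (ht_sq hm').2
      rw [ht_mir] at this
      exact this
    have e5 : ht A + 1 ≤ ht (Tsq.mir (Tsq.sq (Tsq.mir S')).2) := by
      cases hq : Tsq.mir (Tsq.sq (Tsq.mir S')).2 with
      | nil => exact absurd hq hne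
      | node _ C D =>
        rw [hq, comps_node] at eA
        rw [← (List.cons.inj eA).1, ht_node]
        omega
    have e6 := (ht_sq hS).1
    rw [e3] at e6
    omega
  have e7 : xTM S' = Tsq.mir (Tsq.sq (Tsq.mir S')).1 △ .nil := by rw [eM, hB]; rfl
  have hO := hc ⟨_, e7⟩
  rw [← e] at hO
  -- the word of `xT S`
  obtain ⟨a, c, fm, h2⟩ := H1.FM.ex hS
  obtain ⟨l, A, hA⟩ := hT a _ fm
  have hw : wd (xT S) = (true :: true :: a) ++ (false :: (c ++ false :: wd (Tsq.sq S).2)) := by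
    rw [xT_sq, wd_node, h2.1]
    simp
  have ha : a = l.map not ++ (wd (A △ .nil)).map not := by
    have := congrArg (List.map not) hA
    rw [JV.not_not_map, List.map_append] at this
    exact this
  have hX : Tsq.ht (xT S) = Tsq.ht S + 1 := by
    rw [H1.ht_eq, H1.ht_eq]
    exact ht_xT hS
  have htop := fm.top
  have cA := wd_counts (A △ .nil)
  have k1 := hO (true :: true :: a) (false :: (c ++ false :: wd (Tsq.sq S).2))
    (true :: true :: l.map not) ((wd (A △ .nil)).map not ++ (false :: (c ++ false :: wd (Tsq.sq S).2)))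
    hw (by rw [hw, ha]; simp) (by rw [hX]; simp; omega) (by
      rw [hX]
      rw [ha, List.count_append, List.count_append] at htop
      have m1 : ∀ m : List Bool, (m.map not).count true = m.count false := by
        intro m
        induction m with
        | nil => rfl
        | cons x m ih => cases x <;> simp [ih]
      have m2 : ∀ m : List Bool, (m.map not).count false = m.count true := by
        intro m
        induction m with
        | nil => rfl
        | cons x m ih => cases x <;> simp [ih]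
      rw [m1 (wd (A △ .nil)), m2 (wd (A △ .nil)), cA.1, cA.2] at htop
      simp
      omega)
  have k2 := congrArg List.length k1
  rw [ha] at k2
  simp [wd_node] at k2

/-- the word before `(X)` -/
theorem pre6 {x : X k} (hS : S ≠ .nil) (hx : x.1 = xT S △ .nil) :
    ∃ v : X k, v.1 = (S △ .nil) △ .nil ∧ TT (TT v) = x := by
  have hn : ((S △ .nil) △ .nil : BinaryTree Unit).numNodes = k := by
    have h1 := X_num x
    have h2 : ∀ t : BinaryTree Unit, t ≠ .nil → (xT t).numNodes = t.numNodes + 1 := by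
      intro t ht0
      have h3 := congrArg BinaryTree.numNodes (Tsq.TT_sq (⟨t, mem_treesOfNumNodesEq.2 rfl⟩ : X t.numNodes) ht0)
      rw [X_num, num_app'] at h3
      rw [xT_sq]
      change (Tsq.sq t).1.numNodes + (Tsq.sq t).2.numNodes + 1 = _
      change t.numNodes = (Tsq.sq t).2.numNodes + (Tsq.sq t).1.numNodes at h3
      omega
    rw [hx] at h1
    change (xT S).numNodes + 0 + 1 = k at h1
    rw [h2 S hS] at h1
    change S.numNodes + 0 + 1 + 0 + 1 = k
    omega
  refine ⟨⟨(S △ .nil) △ .nil, mem_treesOfNumNodesEq.2 hn⟩, rfl, ?_⟩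
  apply Subtype.ext
  rw [Tsq.TT_sq _ (by simp), hx]
  change app (Tsq.sq ((S △ .nil) △ .nil)).2 (Tsq.sq ((S △ .nil) △ .nil)).1 = _
  have e1 : Tsq.sq (S △ .nil) = (xT S, .nil) := by
    rw [Tsq.sq_node, if_neg (by
      have : Tsq.ht (.nil : BinaryTree Unit) = 0 := rfl
      omega)]
    cases S with
    | nil => exact absurd rfl hS
    | node u A C => rw [xT_sq]
  rw [Tsq.sq_node, if_neg (by
      have : Tsq.ht (.nil : BinaryTree Unit) = 0 := rfl
      omega)]
  change app .nil ((Tsq.sq (S △ .nil)).1 △ (Tsq.sq (S △ .nil)).2) = _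
  rw [e1]
  rfl

/-- the word after `(X~)` -/
theorem post6 {x : X k} (hS : S ≠ .nil) (hx : x.1 = xTM S △ .nil) :
    (TT (TT x)).1 = (S △ .nil) △ .nil := by
  have hm : Tsq.mir S ≠ .nil := mir_ne hS
  obtain ⟨v, hv, e⟩ := pre6 (x := Tsq.mirX x) hm (by
    change Tsq.mir x.1 = _
    rw [hx, Tsq.mir_node]
    unfold xTM
    rw [Tsq.mir_mir]
    rfl)
  have e1 := Tsq.TT_mir2 e
  rw [mirX_mirX] at e1
  rw [e1]
  change Tsq.mir v.1 = _
  rw [hv, Tsq.mir_node, Tsq.mir_node, Tsq.mir_mir]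
  rfl

end JVX

open JVX

/-- **I-JV-JVm**, rule `TE` -/
theorem Is9.inner_JVm_te (h : Is9 .nil .nil S F g) (h' : Is9M .nil .nil S' F' g')
    (h3 : 3 ≤ OddHC.ht S) (h3' : 3 ≤ OddHC.ht S')
    (h1 : (OddHC.cont S).count 1 = 0) (h1' : (OddHC.cont S').count 1 = 0)
    (hT : JVI.TE S) (hN : JV.NS S') : ∀ p ∈ g.arcs, ∀ w ∈ innA p, w ∉ g'.B := by
  intro p hp w hw hB
  obtain ⟨e, hx, h4⟩ := h.inner_JVm h' h3 h3' h1 h1' p hp w hw hB
  rw [e] at h4
  rcases h4 with ⟨-, e0 | e0⟩ | ⟨-, e0 | e0 | e0⟩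
  · exact JV.sharp0 h1 h3 hx e0 hN
  · exact JV.sharp1 h1 h3 hx e0 hN
  · exact T3 hT h3 hx e0
  · exact T3 hT h3 hx e0
  · exact T3 hT h3 hx e0

/-- **I-JVm-JV, I-JVm-JVm**, rule `TE` -/
theorem Is9M.inner_JV_te (h : Is9M .nil .nil S F g)
    (h' : Is9 .nil .nil S' F' g' ∨ Is9M .nil .nil S' F' g')
    (h3 : 3 ≤ OddHC.ht S) (h3' : 3 ≤ OddHC.ht S')
    (h1 : (OddHC.cont S).count 1 = 0) (h1' : (OddHC.cont S').count 1 = 0)
    (hT : JVI.TE S) (hT' : JVI.TE S') : ∀ p ∈ g.arcs, ∀ w ∈ innA p, w ∉ g'.B := by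
  intro p hp w hw hB
  obtain ⟨hI, h4⟩ := h.inner_JV h' h3 h3' h1 h1' p hp w hw hB
  obtain ⟨z, hz, hwz⟩ := hI.te
  have e1 : TT w = Tsq.mirX z := by rw [hwz, Tsq.TT_mir]
  have e2 : (TT w).1 = (S △ .nil) △ .nil := by
    rw [e1]
    change Tsq.mir z.1 = _
    rw [hz]
    change Tsq.mir ((Tsq.mir S △ .nil) △ .nil) = _
    rw [Tsq.mir_node, Tsq.mir_node, Tsq.mir_mir]
    rfl
  rcases h4 with ⟨-, e0 | e0⟩ | ⟨-, e0 | e0 | e0⟩
  · exact T0 hT' h3' e0 e2
  · exact T1 hT' h3' e0 e2
  · exact T3 hT' h3' e0 e2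
  · obtain ⟨v, hv, e3⟩ := pre6 (ne_of_ht (h := 2) (by omega)) e0
    rw [← e3] at e2
    exact T6 hT' h3' hv e2
  · have e3 := post6 (ne_of_ht (h := 2) (by omega)) e0
    exact T3 hT h3 e2 e3

end Pool.OddHC
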