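import Pool.Agent.Work.MP_8f87b2_h99.J2I
import Pool.Agent.Work.MP_8f87b2_h50.J3A
import Pool.Agent.Work.MP_8f87b2_h68.J1I
import Pool.Agent.Work.MP_8f87b2_h68.JVI
import Pool.Agent.Work.MP_8f87b2_h57.J3Rows
import Pool.Agent.Work.MP_8f87b2_h25.JEM
import Pool.Agent.Work.MP_8f87b2_h34.J3VS5

/-!
# MP_8f87b2_co: inner rows out of J2B, second part

`J2In.nis`: the shape `NIS`, so no word of a gadget whose words are `NJS` (J2B, J3V, JV, JVm, JE, JEM, JM, H, J1). S5, A.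
-/

set_option autoImplicit false

namespace Pool.OddHC

open BinaryTree Equiv Multiset Pool.Agent.Work.MP_8f87b2_co

namespace J3

open H1 SRun JVi

variable {k n : ℕ} {R B S Z : BinaryTree Unit} {w : X k} {F F' : Set (Cyc k)} {g g' : DG k}

/-! ### `NIS` -/

theorem SqD.nisB (h : SqD k R B S) (w0 : X k) {i : ℕ} (hi : i ∈ [1, 3, 6, 8]) : NIS (TT (sX R B S w0 i)) := by
  have hi20 : i < 20 := by
    simp only [List.mem_cons, List.not_mem_nil, or_false] at hi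
    omega
  exact NIS.of_W h.ne h.one h.h3 hi (h.word w0 hi20)

theorem J2In.nis (h : J2In F g) : ∀ p ∈ g.arcs, ∀ w ∈ innA p, NIS w := by
  obtain ⟨R, B, S, w0, h1, _, h2⟩ := h
  intro p hp w hw
  obtain ⟨i, hi, e⟩ := h2 p hp
  rw [e] at hw
  obtain rfl : w = _ := hw
  exact h1.nisB w0 hi

theorem J2In.inner_njs (h : J2In F g) (h' : ∀ w ∈ g'.B, NJS w) : ∀ p ∈ g.arcs, ∀ w ∈ innA p, w ∉ g'.B :=
  fun p hp w hw => (h.nis p hp w hw).not_mem h'

/-- the words of J2B -/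
def J2Wd (g : DG k) : Prop := ∃ R B S : BinaryTree Unit, SqD k R B S ∧ ∀ w ∈ g.B, ∃ i < 20, w.1 = W R .nil B S i

theorem J2Wd.njs (h : J2Wd g) : ∀ w ∈ g.B, NJS w := by
  obtain ⟨R, B, S, h1, h2⟩ := h
  intro w hw
  obtain ⟨i, hi, e⟩ := h2 w hw
  exact NJS.of_W h1.ne h1.neS h1.one h1.oneB h1.oneS hi (Or.inl e)

/-- **I-J2B-J2B** -/
theorem J2In.inner_J2 (h : J2In F g) (h' : J2Wd g') : ∀ p ∈ g.arcs, ∀ w ∈ innA p, w ∉ g'.B := h.inner_njs h'.njs

/-- **I-J2B-J3V** -/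
theorem J2In.inner_J3V (h : J2In F g) (h' : TyJ3V F' g') : ∀ p ∈ g.arcs, ∀ w ∈ innA p, w ∉ g'.B := h.inner_njs h'.njs

/-- **I-J2B-JM** -/
theorem J2In.inner_JM (h : J2In F g) (h' : TyJM F' g') : ∀ p ∈ g.arcs, ∀ w ∈ innA p, w ∉ g'.B := h.inner_njs h'.njs

/-- **I-J2B-H** -/
theorem J2In.inner_H (h : J2In F g) (h' : Hole2.TyH F' g') : ∀ p ∈ g.arcs, ∀ w ∈ innA p, w ∉ g'.B :=
  h.inner_njs h'.njs

/-- **I-J2B-J1** -/
theorem J2In.inner_J1 (h : J2In F g) (h' : J1.TyJ1 F' g') : ∀ p ∈ g.arcs, ∀ w ∈ innA p, w ∉ g'.B := h.inner_njs h'.njs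

/-- **I-J2B-JV** -/
theorem J2In.inner_JV (h : J2In F g) (h' : Is9 .nil .nil Z F' g') (h3 : 3 ≤ OddHC.ht Z)
    (h1 : (OddHC.cont Z).count 1 = 0) : ∀ p ∈ g.arcs, ∀ w ∈ innA p, w ∉ g'.B := h.inner_njs (h'.njs h3 h1)

/-- **I-J2B-JVm** -/
theorem J2In.inner_JVm (h : J2In F g) (h' : Is9M .nil .nil Z F' g') (h3 : 3 ≤ OddHC.ht Z)
    (h1 : (OddHC.cont Z).count 1 = 0) : ∀ p ∈ g.arcs, ∀ w ∈ innA p, w ∉ g'.B := h.inner_njs (h'.njs h3 h1)

/-- **I-J2B-JE** -/
theorem J2In.inner_JE (h : J2In F g) (h' : TyJE Z F' g') : ∀ p ∈ g.arcs, ∀ w ∈ innA p, w ∉ g'.B := h.inner_njs h'.njs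

/-- **I-J2B-JEM** -/
theorem J2In.inner_JEM (h : J2In F g) (h' : TyJEM Z F' g') : ∀ p ∈ g.arcs, ∀ w ∈ innA p, w ∉ g'.B :=
  h.inner_njs h'.njs

/-! ### S5 -/

/-- a plain triple: every word starts with `()`, or ends with `()`, or does not start with `111` / `1100`, or does not end
with `000` / `1100`, or has `bv 1` -/
theorem InB.not_triE (h : InB n w.1) {P Q R : BinaryTree Unit} (h' : IsTri P Q R F' g')
    (hw : ∀ Y : BinaryTree Unit, (Y = w1 P Q R ∨ Y = w1 Q R P ∨ Y = w1 R P Q) →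
      (∃ Z, Y = .nil △ Z) ∨ (∃ Z, Y = app Z (.nil △ .nil)) ∨ ¬ Sta 2 (wd Y) ∨ ¬ End 2 (wd Y) ∨ bv 1 Y) :
    w ∉ g'.B := by
  intro hw'
  have key : (∃ Z, w.1 = .nil △ Z) ∨ (∃ Z, w.1 = app Z (.nil △ .nil)) ∨ ¬ Sta 2 (wd w.1) ∨
      ¬ End 2 (wd w.1) ∨ bv 1 w.1 := by
    apply hw
    rcases h'.words w hw' with e | ⟨_, e | e⟩
    · exact Or.inl e
    · exact Or.inr (Or.inl e)
    · exact Or.inr (Or.inr e)
  rcases key with ⟨Z, e⟩ | ⟨Z, e⟩ | e | e | e
  · exact sta2_first h.sta e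
  · exact end2_last h.en e
  · exact e h.sta
  · exact e h.en
  · exact h.not_bv e

theorem lp2_wd (n : ℕ) : wd (lp (n + 2)) = true :: false :: true :: false :: wd (lp n) := rfl

theorem wd_lp_end (n : ℕ) : ∃ l, wd (lp (n + 2)) = l ++ [true, false, true, false] := by
  refine ⟨wd (lp n), ?_⟩
  rw [lp_app, wd_app, lp_app, wd_app]
  simp [wd]

/-- **I-J2B-S5** -/
theorem J2In.inner_S5 (h : J2In F g) (h' : TyS5 F' g') : ∀ p ∈ g.arcs, ∀ w ∈ innA p, w ∉ g'.B := by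
  obtain ⟨s, m, hs, hm, ht | ht | ht⟩ := h'
  · refine InB.row h fun n w _ h1 => h1.not_triE ht ?_
    rintro Y (rfl | rfl | rfl)
    · left; exact ⟨_, rfl⟩
    · right; left
      refine ⟨app (H1.ch s) (.nil △ lp (m + 1)), ?_⟩
      unfold w1
      rw [lp_app (m + 1), H1.app_assoc]
      rfl
    · right; right; left
      change ¬ Sta 2 (wd (lp (m + 2) △ H1.ch s))
      rw [wd_node, lp2_wd]
      rintro (⟨r, e⟩ | ⟨r, e⟩) <;> simp [List.replicate_succ] at e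
  · refine InB.row h fun n w _ h1 => h1.not_triE ht ?_
    rintro Y (rfl | rfl | rfl)
    · right; left
      refine ⟨H1.ch s △ lp (m + 1), ?_⟩
      change H1.ch s △ lp (m + 2) = _
      rw [lp_app (m + 1)]
      rfl
    · right; right; right; left
      change ¬ End 2 (wd (app (H1.ch s) (lp (m + 2) △ .nil)))
      obtain ⟨l, e⟩ := wd_lp_end m
      rw [wd_app, wd_node, e]
      rintro (⟨r, e⟩ | ⟨r, e⟩)
      · have h1 := congrArg List.reverse e
        simp [List.replicate_succ, wd] at h1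
      · have h1 := congrArg List.reverse e
        simp [List.replicate_succ, wd] at h1
    · left; exact ⟨_, rfl⟩
  · refine InB.row h fun n w _ h1 => h1.not_triE ht ?_
    obtain ⟨m, rfl⟩ : ∃ m', m = m' + 1 := ⟨m - 1, by omega⟩
    rintro Y (rfl | rfl | rfl)
    · left; exact ⟨_, rfl⟩
    · right; left
      refine ⟨app (app (H1.ch s) (lp (m + 1))) (H1.ch 2 △ .nil), ?_⟩
      unfold w1
      simp only [H1.app_assoc]
      rfl
    · right; left
      refine ⟨app (H1.ch 2) (lp 1 △ app (H1.ch s) (lp m)), ?_⟩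
      unfold w1
      rw [lp_app m, H1.app_assoc]
      change _ = app (H1.ch 2) (lp 1 △ app (app (H1.ch s) (lp m)) (.nil △ .nil))
      rw [H1.app_assoc]

/-! ### Windows without a part 1 in `R` -/

theorem nb_one {t : BinaryTree Unit} (h : (OddHC.cont t).count 1 = 0) : nb t := by
  by_cases h0 : t = .nil
  · subst h0
    exact nb_nil
  · exact N101.of_D2 (Gd_of h0 h).1.d2

theorem nbb_one {t : BinaryTree Unit} (h : (OddHC.cont t).count 1 = 0) : nbb t :=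
  ⟨nb_one h, nb_one (by rw [HM.cont_mir]; exact h)⟩

/-- **no word of a window `W R [q + 1] B S i`, right or mirrored, `R, B, S` without a part 1** -/
theorem InB.not_win (h : InB n w.1) {q : ℕ} {R B S : BinaryTree Unit} (hR : (OddHC.cont R).count 1 = 0)
    (hB : (OddHC.cont B).count 1 = 0) (hS : (OddHC.cont S).count 1 = 0) {i : ℕ}
    (hi : i < 20) (e : w.1 = W R (ch (q + 1)) B S i ∨ w.1 = Tsq.mir (W R (ch (q + 1)) B S i)) : False := by
  have h1 := bv_W (nbb_one hR) (nbb_one hB) (nbb_one hS) q hi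
  rcases e with e | e
  · exact h.not_bv (e ▸ h1)
  · exact h.not_bv (e ▸ bv_mir h1)

/-- contents of `sq R` -/
theorem sq_cnt (R : BinaryTree Unit) (h : R ≠ .nil) :
    OddHC.cont (Tsq.sq R).2 + OddHC.cont (Tsq.sq R).1 = OddHC.cont R := by
  let x : X R.numNodes := ⟨R, mem_treesOfNumNodesEq.2 rfl⟩
  have e1 : (TT (TT x)).1 = app (Tsq.sq R).2 (Tsq.sq R).1 := Tsq.TT_sq x h
  have e2 : OddHC.cont (TT (TT x)).1 = OddHC.cont R := by
    rw [TT_apply, cont_TF, TT_apply, cont_TF]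
  rw [e1, cont_app] at e2
  exact e2

/-- **I-J2B-A, windows of type A without a part 1** (`m = 0`) -/
theorem J2In.inner_Am0 (h : J2In F g) (h' : TyA F' g') (hm : ∀ c ∈ F', (contc c).count 1 = 0) :
    ∀ p ∈ g.arcs, ∀ w ∈ innA p, w ∉ g'.B := by
  refine InB.row h fun n w _ h1 hw => ?_
  obtain ⟨q, B1, H, s, B', w0', hn, rfl, rfl⟩ := h'
  obtain ⟨i, hi, e⟩ := mem_gad20.1 hw
  have hbig := hn.big
  have hR1 : (OddHC.cont (H1.gR B1 H s B')).count 1 = 0 := by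
    have h1 := hm _ rfl
    change (OddHC.cont (H1.gX q B1 H s B' w0' 0).1).count 1 = 0 at h1
    rw [hn.cont0, Multiset.count_add] at h1
    omega
  have hR0 : H1.gR B1 H s B' ≠ .nil := by
    intro e0
    have h2 := hn.ht
    rw [e0] at h2
    have h3 : OddHC.ht (BinaryTree.nil : BinaryTree Unit) = 0 := rfl
    omega
  have h2 := sq_cnt _ hR0
  rw [hn.sq.1] at h2
  have h3 : (OddHC.cont B').count 1 = 0 ∧ (OddHC.cont (Tsq.sq (H1.gR B1 H s B')).1).count 1 = 0 := by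
    rw [← h2, Multiset.count_add] at hR1
    omega
  refine h1.not_win (q := q) hR1 h3.1 h3.2 hi (Or.inl ?_)
  rw [← e]
  exact hn.word w0' hi

/-! ### Windows of type A with a part 1 -/

/-- no factor `1 0 1 1` in `T(R()())` -/
theorem no4 {α β : List Bool} (hα : N101 α) (hβ : N101 β) (h0 : ∃ l, β = false :: l) :
    ∀ u v, α ++ ([false, true, false, true, false] ++ β) ≠ u ++ true :: false :: true :: true :: v := by
  intro u v e
  obtain ⟨l, hl⟩ := h0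
  rcases List.append_eq_append_iff.1 e with ⟨c, h1, h2⟩ | ⟨c, h1, h2⟩
  · rcases c with _ | ⟨x1, _ | ⟨x2, _ | ⟨x3, _ | ⟨x4, _ | ⟨x5, c⟩⟩⟩⟩⟩
    · simp at h2
    · simp at h2
    · simp at h2
    · rw [hl] at h2
      simp at h2
    · simp at h2
    · simp only [List.cons_append, List.cons.injEq, List.nil_append] at h2
      exact hβ c (true :: v) (by rw [h2.2.2.2.2.2])
  · rcases c with _ | ⟨x1, _ | ⟨x2, _ | ⟨x3, c⟩⟩⟩
    · simp at h2
    · simp at h2
    · simp at h2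
    · simp only [List.cons_append, List.cons.injEq] at h2
      obtain ⟨rfl, rfl, rfl, _⟩ := h2
      exact hα u c h1

/-- **I-J2B-A**: no word of a window of type A with a part 1. For the windows of height 4 only: `4 ≤ ht R` and `R = a 1 b`
(first maximum) with `a ≠ 111`, `b` not `0011..`. -/
theorem J2In.inner_A (h : J2In F g) (h' : TyA F' g') (hm : ∀ c ∈ F', 1 ≤ (contc c).count 1)
    (hc : (∀ c ∈ F', htc c = 4) → (∀ c ∈ F, 4 ≤ htc c) ∧ ∀ (R B S : BinaryTree Unit) (w0 : X k), SqD k R B S →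
      (∀ p ∈ g.arcs, ∃ i ∈ [1, 3, 6, 8], innA p = {TT (sX R B S w0 i)}) →
      ∀ a b, H1.FM R a b → a ≠ [true, true, true] ∧ ∀ v, b ≠ false :: false :: true :: true :: v)
    (hne : F.Nonempty) :
    ∀ p ∈ g.arcs, ∀ w ∈ innA p, w ∉ g'.B := by
  intro p hp w hw hw'
  obtain ⟨R, B, S, w0, h1, hF, hg⟩ := h
  obtain ⟨a, b, hD⟩ := Dt.ex (Gd_of h1.ne h1.one).1 (by rw [H1.ht_eq]; exact h1.h3)
  obtain ⟨q, B1, H, s, B', w0', hn, rfl, rfl⟩ := h'
  obtain ⟨i, hi, e⟩ := mem_gad20.1 hw'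
  have hbig := hn.big
  have hR1 : 1 ∈ OddHC.cont (H1.gR B1 H s B') := by
    have h1 := hm _ rfl
    change 1 ≤ (OddHC.cont (H1.gX q B1 H s B' w0' 0).1).count 1 at h1
    rw [hn.cont0, Multiset.count_add, Multiset.count_singleton, if_neg (by omega)] at h1
    exact Multiset.count_pos.1 (by omega)
  have e1 : wd w.1 = wd (H1.W (H1.gR B1 H s B') (H1.ch (q + 1)) B'
      (Tsq.sq (H1.gR B1 H s B')).1 i) := by
    rw [← hn.word w0' hi, e]
  have e3 : (sX R B S w0 3).1 = (app R (.nil △ .nil) △ .nil) := h1.word w0 (by norm_num)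
  have e6 : (sX R B S w0 6).1 = (R △ (.nil △ .nil)) := h1.word w0 (by norm_num)
  obtain ⟨j, hj, ej⟩ := hg p hp
  rw [ej] at hw
  obtain rfl : w = _ := hw
  simp only [List.mem_cons, List.not_mem_nil, or_false] at hj
  rcases hj with rfl | rfl | rfl | rfl
  · obtain ⟨p', s', e2⟩ := ne_W35 hn hR1 (H1.ch (q + 1)) hi
    rw [← e1, h1.innW1 w0 hD.fm] at e2
    exact no4 (N101.of_D2 hD.be) hD.al hD.st p' s' e2
  · refine ne_W4 hn hR1 hD e3 ?_ hi e1
    intro hs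
    have h4 := hc ?_
    · refine ⟨?_, h4.2 R B S w0 h1 hg a b hD.fm⟩
      obtain ⟨z, hz⟩ := hne
      have h5 := h4.1 _ hz
      rw [hF z hz] at h5
      exact h5
    · rintro c rfl
      change (OddHC.cont (H1.gX q B1 H s B' w0' 0).1).sup = 4
      rw [hn.cont0, Multiset.sup_add, ← OddHC.ht_eq, hn.ht, Multiset.sup_singleton, hs]
      exact max_eq_left (by omega)
  · obtain ⟨p', s', e2⟩ := ne_W35 hn hR1 (H1.ch (q + 1)) hi
    rw [← e1] at e2
    have := hD.n5 e6 e2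
    simp at this
  · obtain ⟨p', s', e2⟩ := ne_W35 hn hR1 (H1.ch (q + 1)) hi
    rw [← e1] at e2
    exact N101_8 hD h1 w0 p' (true :: s') e2

end J3

end Pool.OddHC
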