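import Pool.Agent.Work.MP_8f87b2_h50.J3Rows

/-!
# MP_8f87b2_co: the inner words of J2B (arcs 1 > 11, 3 > 12, 6 > 15, 8 > 14 of the block pair of `R`)

`T (w i)`, `i = 1, 3, 6, 8`: with `R = a 1 b` at the first maximum `b' 01010 a'`, `b' 01100 a'`, `b' 10100 a'`, `b' 10010 a'`.
`InB n t`: start `111` / `1100`, end `000` / `1100`, a bead at height `n - 1 >= 2` in one of the two orientations. Rows against
L, K, K', Cr, Cl, bare windows (right and mirrored), T.
-/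

set_option autoImplicit false

namespace Pool.OddHC

open BinaryTree Equiv Multiset Pool.Agent.Work.MP_8f87b2_co

namespace J3

open H1

variable {k n : ℕ} {R B S : BinaryTree Unit} {w : X k} {F F' : Set (Cyc k)} {g g' : DG k}

/-- `T (R()())` -/
theorem SqD.innW1 (h : SqD k R B S) (w0 : X k) {a b : List Bool} (h1 : FM R a b) :
    wd (TT (sX R B S w0 1)).1 = b.map not ++ ([false, true, false, true, false] ++ a.map not) := by
  have h3 := h.h3
  have hn : Tsq.ht (.nil : BinaryTree Unit) = 0 := rfl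
  have hR : Tsq.ht R = OddHC.ht R := H1.ht_eq R
  have k1 := h1.app_right (Z := .nil △ (.nil △ .nil)) (by rw [Tsq.ht_node, Tsq.ht_node, hn]; omega)
  have e : (sX R B S w0 1).1 = app R (.nil △ (.nil △ .nil)) := h.word w0 (by norm_num)
  rw [← e] at k1
  rw [k1.wdT]
  simp [wd]

/-- start, end, bead -/
structure InB (n : ℕ) (t : BinaryTree Unit) : Prop where
  n3 : 3 ≤ n
  sta : Sta 2 (wd t)
  en : End 2 (wd t)
  bead : hbn (n - 1) t ∨ hbn (n - 1) (Tsq.mir t)

theorem InJ.inB {t : BinaryTree Unit} (h : InJ n t) : InB n t := ⟨h.n3, h.sta, h.en, h.bead⟩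

theorem SqD.inB1 (h : SqD k R B S) (w0 : X k) : InB (OddHC.ht R) (TT (sX R B S w0 1)).1 := by
  obtain ⟨a, b, h1⟩ := h.fmt
  have h3 := h.h3
  have hR : Tsq.ht R = OddHC.ht R := H1.ht_eq R
  have e := h.innW1 w0 h1.fm
  have hb1 := h1.fm.bal
  have ha1 := h1.fm.top
  have m1 : (b.map not).count true = b.count false := Tsq.count_not_true b
  have m2 : (b.map not).count false = b.count true := Tsq.count_not_false b
  obtain ⟨d, hd⟩ : ∃ d, b = d ++ [false] := by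
    obtain ⟨r, hr⟩ := H1.wd_last h.ne
    rw [h1.fm.eq] at hr
    rcases List.eq_nil_or_concat b with rfl | ⟨d, x, rfl⟩
    · exfalso
      rcases h1.dn with ⟨r, h2⟩ | ⟨r, h2⟩ <;> simp [List.replicate_succ] at h2
    · refine ⟨d, ?_⟩
      have h5 : (a ++ true :: d) ++ [x] = r ++ [false] := by
        rw [← hr]; simp
      have h6 := List.append_inj_right' h5 rfl
      rw [List.cons.injEq] at h6
      rw [h6.1]
      simp
  refine ⟨h3, ?_, ?_, ?_⟩
  · rw [e]
    rcases h1.dn with ⟨r, h2⟩ | ⟨r, h2⟩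
    · left
      exact ⟨r.map not ++ ([false, true, false, true, false] ++ a.map not), by rw [h2]; simp⟩
    · right
      exact ⟨r.map not ++ ([false, true, false, true, false] ++ a.map not), by rw [h2]; simp⟩
  · rw [e]
    rcases h1.up with rfl | ⟨a', rfl⟩ | ⟨a', rfl⟩
    · left
      exact ⟨b.map not ++ [false, true, false, true], by simp [List.replicate_succ]⟩
    · left
      exact ⟨b.map not ++ ([false, true, false, true] ++ false :: a'.map not), by simp⟩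
    · right
      exact ⟨b.map not ++ ([false, true, false, true] ++ false :: a'.map not), by simp⟩
  · left
    refine ⟨d.map not, false :: true :: false :: a.map not, ?_, ?_⟩
    · rw [e, hd]
      simp
    · rw [hd] at m1 m2 hb1
      simp at m1 m2 hb1 ⊢
      have m3 : (d.map not).count true = d.count false := Tsq.count_not_true d
      have m4 : (d.map not).count false = d.count true := Tsq.count_not_false d
      omega

theorem SqD.inB (h : SqD k R B S) (w0 : X k) {i : ℕ} (hi : i ∈ [1, 3, 6, 8]) :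
    InB (OddHC.ht R) (TT (sX R B S w0 i)).1 := by
  simp only [List.mem_cons, List.not_mem_nil, or_false] at hi
  rcases hi with rfl | rfl | rfl | rfl
  · exact h.inB1 w0
  · exact (h.inJ w0 (by simp)).inB
  · exact (h.inJ w0 (by simp)).inB
  · exact (h.inJ w0 (by simp)).inB

theorem InB.not_bv {t : BinaryTree Unit} (h : InB n t) : ¬ bv 1 t := by
  rintro ⟨h1, h2⟩
  have := h.n3
  rcases h.bead with h3 | h3
  · exact vb_not_hbn h1 (by omega) h3
  · exact vb_not_hbn h2 (by omega) h3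

/-- **a plain triple**: every word starts with `()`, or ends with `()`, or has `bv 1` -/
theorem InB.not_tri (h : InB n w.1) {P Q R : BinaryTree Unit} (h' : IsTri P Q R F' g')
    (hw : ∀ Y : BinaryTree Unit, (Y = w1 P Q R ∨ Y = w1 Q R P ∨ Y = w1 R P Q) →
      (∃ Z, Y = .nil △ Z) ∨ (∃ Z, Y = app Z (.nil △ .nil)) ∨ bv 1 Y) : w ∉ g'.B := by
  intro hw'
  have key : (∃ Z, w.1 = .nil △ Z) ∨ (∃ Z, w.1 = app Z (.nil △ .nil)) ∨ bv 1 w.1 := by
    apply hw
    rcases h'.words w hw' with e | ⟨_, e | e⟩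
    · exact Or.inl e
    · exact Or.inr (Or.inl e)
    · exact Or.inr (Or.inr e)
  rcases key with ⟨Z, e⟩ | ⟨Z, e⟩ | e
  · exact sta2_first h.sta e
  · exact end2_last h.en e
  · exact h.not_bv e

/-- the inner words of a gadget with the arcs of J2B -/
def J2In (F : Set (Cyc k)) (g : DG k) : Prop :=
  ∃ (R B S : BinaryTree Unit) (w0 : X k), SqD k R B S ∧ (∀ c ∈ F, htc c = OddHC.ht R) ∧
    ∀ p ∈ g.arcs, ∃ i ∈ [1, 3, 6, 8], innA p = {TT (sX R B S w0 i)}

theorem J2In.inB (h : J2In F g) : ∃ n, (∀ c ∈ F, htc c = n) ∧ ∀ p ∈ g.arcs, ∀ w ∈ innA p, InB n w.1 := by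
  obtain ⟨R, B, S, w0, h1, h0, h2⟩ := h
  refine ⟨OddHC.ht R, h0, ?_⟩
  intro p hp w hw
  obtain ⟨i, hi, e⟩ := h2 p hp
  rw [e] at hw
  obtain rfl : w = _ := hw
  exact h1.inB w0 hi

theorem InB.row (h : J2In F g) {C : Finset (X k)} (hC : ∀ n (w : X k), (∀ c ∈ F, htc c = n) → InB n w.1 → w ∉ C) :
    ∀ p ∈ g.arcs, ∀ w ∈ innA p, w ∉ C := by
  obtain ⟨n, h0, h1⟩ := h.inB
  exact fun p hp w hw => hC n w h0 (h1 p hp w hw)

/-- **I-J2B-L** -/
theorem J2In.inner_Lpq {p q : ℕ} {R : BinaryTree Unit} (h : J2In F g)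
    (h' : IsTri (lp (q + 1)) R (lp (p + 1)) F' g') : ∀ p ∈ g.arcs, ∀ w ∈ innA p, w ∉ g'.B := by
  refine InB.row h fun n w _ h1 => h1.not_tri h' ?_
  rintro Y (rfl | rfl | rfl)
  · left; exact ⟨_, rfl⟩
  · right; left
    refine ⟨app R (lp (p + 1) △ lp q), ?_⟩
    unfold w1
    rw [lp_app q, H1.app_assoc]
    rfl
  · left; exact ⟨_, rfl⟩

theorem J2In.inner_L (h : J2In F g) (h' : TyL F' g') : ∀ p ∈ g.arcs, ∀ w ∈ innA p, w ∉ g'.B := by
  obtain ⟨R', e, _, _, _, _, ht⟩ := h'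
  exact h.inner_Lpq (p := 0) (q := 0) ht

/-- **I-J2B-K** (`S(())`; the other two words end or start with `()`) -/
theorem J2In.inner_K (h : J2In F g) (h' : TyK S F' g') (hS : bv 1 S) :
    ∀ p ∈ g.arcs, ∀ w ∈ innA p, w ∉ g'.B := by
  refine InB.row h fun n w _ h1 => h1.not_tri (P := .nil) (Q := S) (R := .nil △ .nil) h' ?_
  rintro Y (rfl | rfl | rfl)
  · right; left; exact ⟨S △ .nil, rfl⟩
  · right; right
    exact bv_app hS (bv_tower (nbb_ch 1) (bv_nil 1))
  · left; exact ⟨_, rfl⟩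

/-- **I-J2B-K'** (`(())S`) -/
theorem J2In.inner_K' (h : J2In F g) (h' : TyK' S F' g') (hS : bv 1 S) :
    ∀ p ∈ g.arcs, ∀ w ∈ innA p, w ∉ g'.B := by
  refine InB.row h fun n w _ h1 => h1.not_tri (P := .nil △ .nil) (Q := S) (R := .nil) h' ?_
  rintro Y (rfl | rfl | rfl)
  · left; exact ⟨_, rfl⟩
  · right; left
    exact ⟨app S (.nil △ .nil), by rw [H1.app_assoc]; rfl⟩
  · right; right
    exact bv_tower (nbb_ch 1) hS

/-- **I-J2B-Cr** -/
theorem J2In.inner_Cr {c : ℕ} (h : J2In F g) (h' : TyC c S F' g') (hS : bv 0 S) :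
    ∀ p ∈ g.arcs, ∀ w ∈ innA p, w ∉ g'.B := by
  refine InB.row h fun n w _ h1 => h1.not_tri (P := .nil) (Q := S) (R := ch c) h' ?_
  rintro Y (rfl | rfl | rfl)
  · right; right
    exact bv_w1 (bv_nil 1) hS (bv_ch 1 c)
  · right; right
    exact bv_w1 (bv_mono hS (by omega)) (bv_ch 0 c) (bv_nil 1)
  · right; right
    exact bv_w1 (bv_ch 1 c) (bv_nil 0) (bv_mono hS (by omega))

/-- **I-J2B-Cl** -/
theorem J2In.inner_Cl {c : ℕ} (h : J2In F g) (h' : TyC' c S F' g') (hS : bv 0 S) :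
    ∀ p ∈ g.arcs, ∀ w ∈ innA p, w ∉ g'.B := by
  refine InB.row h fun n w _ h1 => h1.not_tri (P := ch c) (Q := S) (R := .nil) h' ?_
  rintro Y (rfl | rfl | rfl)
  · right; right
    exact bv_w1 (bv_ch 1 c) hS (bv_nil 1)
  · right; right
    exact bv_w1 (bv_mono hS (by omega)) (bv_nil 0) (bv_ch 1 c)
  · right; right
    exact bv_w1 (bv_nil 1) (bv_ch 0 c) (bv_mono hS (by omega))

/-- **the words of a bare window, right or mirrored** -/
theorem InB.not_bare (h : InB n w.1) {q : ℕ} {R B S : BinaryTree Unit} (h' : HM.NodeM k q R B S) {i : ℕ}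
    (hi : i < 20) (e : w.1 = W R (ch (q + 1)) B S i ∨ w.1 = Tsq.mir (W R (ch (q + 1)) B S i)) : False := by
  have h1 := h'.bvW hi
  rcases e with e | e
  · exact h.not_bv (e ▸ h1)
  · exact h.not_bv (e ▸ bv_mir h1)

/-- **I-J2B-A0** -/
theorem J2In.inner_A0 (h : J2In F g) (h' : TyA0 F' g') :
    ∀ p ∈ g.arcs, ∀ w ∈ innA p, w ∉ g'.B := by
  refine InB.row h fun n w _ h1 hw => ?_
  obtain ⟨q, R, B, S, w0, h2, hne, rfl, rfl⟩ := h'
  obtain ⟨i, hi, rfl⟩ := mem_gad20M.1 hw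
  exact h1.not_bare h2 hi (Or.inr (mX_W h2 w0 hi))

/-- **I-J2B-B0** (merged windows) -/
theorem J2In.inner_B0 (h : J2In F g) (h' : TyB0 F' g') :
    ∀ p ∈ g.arcs, ∀ w ∈ innA p, w ∉ g'.B := by
  refine InB.row h fun n w _ h1 hw => ?_
  obtain ⟨q, R, B, S, w0, h2, hne, h12, h18, rfl, rfl⟩ := h'
  obtain ⟨i, hi, _, rfl⟩ := mem_gadSM.1 hw
  exact h1.not_bare h2 hi (Or.inr (mX_W h2 w0 hi))

/-- right bare windows (every `q`: TyR3, TySq, TyRq, TyRqE) -/
theorem J2In.inner_bareR (h : J2In F g) {q : ℕ} {R B S : BinaryTree Unit} {w0 : X k}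
    (h' : HM.NodeM k q R B S) : ∀ p ∈ g.arcs, ∀ w ∈ innA p, ∀ i < 20, w ≠ wX R B S q w0 i := by
  obtain ⟨n, _, h1⟩ := h.inB
  intro p hp w hw i hi e
  refine (h1 p hp w hw).not_bare h' hi (Or.inl ?_)
  rw [e, wX_eq h'.dat h'.size w0 hi]

/-- **I-J2B-T**, J2B of height at least 4 (empty) -/
theorem J2In.inner_T (h : J2In F g) (hne : F.Nonempty) (h4 : ∀ c ∈ F, 4 ≤ htc c) (h' : TyT F' g')
    (hle : ∀ c ∈ F, ∀ d ∈ F', htc c ≤ htc d) : ∀ p ∈ g.arcs, ∀ w ∈ innA p, w ∉ g'.B := by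
  exfalso
  have h3 := h'.ht3
  obtain ⟨b, m, a, w0', h1', rfl, rfl⟩ := h'
  obtain ⟨z, hz⟩ := hne
  have e1 := h4 _ hz
  have e2 := h3 _ rfl
  have e3 := hle _ hz _ rfl
  omega

end J3

end Pool.OddHC
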