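import Pool.Agent.Work.MP_8f87b2_h99.J2I2
import Pool.Agent.Work.MP_8f87b2_h50.J3P
import Pool.Agent.Work.MP_8f87b2_h90.J3S5
import Pool.Agent.Work.MP_8f87b2_h21.JVns

/-!
# MP_8f87b2_co: inner rows out of J2B, third part: E

Hit list (`J2In.inner_hit`): an inner word of J2B is a word of an E triple over `X` only as the host `(X)`.
`J2Ar.inner_E`: no hit if the word after the first maximum of `R` starts with `0000` or `000111` and `R` has a part 2 (or a
part 3 and `00000` / `00001111`). `J2Ar.inner_E_sharp`: sharp `R` with a part 2 or 3. The word 1 has the height of the group,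
so it hits only hosts of lower pairs.
-/

set_option autoImplicit false

namespace Pool.OddHC

open BinaryTree Equiv Multiset Pool.Agent.Work.MP_8f87b2_co

namespace J3

open H1 SRun

variable {k n : ℕ} {R B S Z : BinaryTree Unit} {w : X k} {F F' : Set (Cyc k)} {g g' : DG k}

/-- the middle of the inner words -/
def IG99 (i : ℕ) : List Bool := if i = 1 then [false, true, false, true, false] else IF i

theorem SqD.innWB (h : SqD k R B S) (w0 : X k) {i : ℕ} (hi : i ∈ [1, 3, 6, 8]) {a b : List Bool} (h1 : FM R a b) :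
    wd (TT (sX R B S w0 i)).1 = b.map not ++ (IG99 i ++ a.map not) := by
  simp only [List.mem_cons, List.not_mem_nil, or_false] at hi
  rcases hi with rfl | rfl | rfl | rfl
  · exact h.innW1 w0 h1
  · exact h.innW w0 (by simp) h1
  · exact h.innW w0 (by simp) h1
  · exact h.innW w0 (by simp) h1

theorem SqD.staB (h : SqD k R B S) (w0 : X k) {i : ℕ} (hi : i ∈ [1, 3, 6, 8]) {a b : List Bool} (h1 : FM R a b)
    {g0 : ℕ} (hb : Aft' g0 b) : Sta g0 (wd (TT (sX R B S w0 i)).1) := by
  rw [h.innWB w0 hi h1]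
  rcases hb with ⟨r, h2⟩ | ⟨r, h2⟩
  · left
    exact ⟨r.map not ++ (IG99 i ++ a.map not), by rw [h2]; simp⟩
  · right
    exact ⟨r.map not ++ (IG99 i ++ a.map not), by rw [h2]; simp⟩

/-- heights of the inner words -/
theorem SqD.htInn (h : SqD k R B S) (w0 : X k) {i : ℕ} (hi : i ∈ [1, 3, 6, 8]) :
    OddHC.ht (TT (sX R B S w0 i)).1 = if i = 1 then OddHC.ht R else OddHC.ht R + 1 := by
  have h3 := h.h3
  have hi' : i < 20 := by
    simp only [List.mem_cons, List.not_mem_nil, or_false] at hi
    omega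
  have hw := h.word w0 hi'
  have hc : OddHC.cont (TT (sX R B S w0 i)).1 = OddHC.cont (W R .nil B S i) := by rw [cont_TT, hw]
  have h00 : OddHC.ht (BinaryTree.nil : BinaryTree Unit) = 0 := rfl
  rw [OddHC.ht_eq, hc, ← OddHC.ht_eq]
  simp only [List.mem_cons, List.not_mem_nil, or_false] at hi
  rcases hi with rfl | rfl | rfl | rfl <;> simp only [W, app, ht_app, ht_node, h00] <;> simp <;> omega

/-- parts below the top part -/
theorem SqD.innCB (h : SqD k R B S) (w0 : X k) {i : ℕ} (hi : i ∈ [1, 3, 6, 8]) (p : ℕ) (h2 : 2 ≤ p)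
    (hp : p < OddHC.ht R) : (OddHC.cont (TT (sX R B S w0 i)).1).count p = (OddHC.cont R).count p := by
  simp only [List.mem_cons, List.not_mem_nil, or_false] at hi
  rcases hi with rfl | rfl | rfl | rfl
  · have hw := h.word w0 (i := 1) (by norm_num)
    have hc : OddHC.cont (TT (sX R B S w0 1)).1 = OddHC.cont (W R .nil B S 1) := by rw [cont_TT, hw]
    have r0 : raise (OddHC.cont (BinaryTree.nil : BinaryTree Unit)) = {1} := raise_nil
    have h1 : ({1} : Multiset ℕ).count p = 0 := by
      rw [Multiset.count_singleton, if_neg (by omega)]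
    rw [hc]
    change (OddHC.cont (app R (.nil △ (.nil △ .nil)))).count p = _
    rw [cont_app, cont_node, cont_node, r0, cont_nil, add_zero, Multiset.count_add, Multiset.count_add, h1]
    omega
  · exact h.innC w0 (by simp) p h2 hp
  · exact h.innC w0 (by simp) p h2 hp
  · exact h.innC w0 (by simp) p h2 hp

/-- **hit list, J2B (any phase) - E, all three words, any `X`** -/
theorem J2In.inner_hit (h : J2In F g) {X : BinaryTree Unit} (h' : IsTri .nil X .nil F' g') :
    ∀ p ∈ g.arcs, ∀ w ∈ innA p, w ∈ g'.B → w.1 = X △ .nil ∧ cyc w ∉ F' ∧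
      ∃ (R B S : BinaryTree Unit) (w0 : OddHC.X k) (i : ℕ) (a b : List Bool), SqD k R B S ∧
        (∀ c ∈ F, htc c = OddHC.ht R) ∧ i ∈ [1, 3, 6, 8] ∧
        w = TT (sX R B S w0 i) ∧ H1.FM R a b ∧ true :: (wd X ++ [false]) = b.map not ++ (IG99 i ++ a.map not) := by
  obtain ⟨R, B, S, w0, h1, hF, h2⟩ := h
  obtain ⟨a, b, h3⟩ := h1.fmt
  intro p hp w hw hw'
  obtain ⟨i, hi, e⟩ := h2 p hp
  rw [e] at hw
  obtain rfl : w = _ := hw
  have hJ := h1.inB w0 hi
  have e1 := h1.innWB w0 hi h3.fm
  rcases h'.words _ hw' with e2 | ⟨_, e2 | e2⟩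
  · have e3 : (TT (sX R B S w0 i)).1 = X △ .nil := e2
    refine ⟨e3, ?_, R, B, S, w0, i, a, b, h1, hF, hi, rfl, h3.fm, ?_⟩
    · intro hF'
      obtain ⟨a', b', c', ha, hb', hc', k1, k2, k3, rfl, rfl⟩ := h'
      have e4 : (TT (sX R B S w0 i)) = a' := Subtype.ext (e2.trans ha.symm)
      rw [e4] at hF'
      rcases hF' with e5 | e5
      · rw [e5] at k3; exact lt_irrefl _ k3
      · rw [k2, ← e5] at k3; exact lt_irrefl _ k3
    · rw [← e1, e3, wd_node]
      simp [wd]
  · exact absurd e2 (end2_last hJ.en)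
  · exact absurd e2 (sta2_first hJ.sta)

/-- **E (Low)**, a word with a long start -/
theorem InB.not_E (h : InB n w.1) {g0 : ℕ} (g3 : 3 ≤ g0) (hk : g0 < k) (hs : Sta g0 (wd w.1))
    (h4 : 4 ≤ OddHC.ht w.1) (h' : TyE F' g')
    (hc : (∀ d ∈ F', htc (cyc w) ≤ htc d) ∨ 1 ≤ (OddHC.cont w.1).count 2 ∨
      (4 ≤ g0 ∧ 1 ≤ (OddHC.cont w.1).count 3)) : w ∉ g'.B := by
  obtain ⟨j, r, f, hj, hr, ht⟩ := h'
  have hf : (lf f).length = 2 * r.1.numNodes + 1 := by rw [lf_length, X_num]
  intro hw
  rcases ht.words _ hw with e | ⟨_, e | e⟩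
  · rcases hc with hc | hc
    · obtain ⟨a', b', c', ha, hb', hc', k1, k2, k3, rfl, rfl⟩ := ht
      have e8 : w = a' := Subtype.ext (e.trans ha.symm)
      have h5 := hc (cyc b') (Or.inl rfl)
      rw [e8] at h5
      omega
    · have e1 : w.1 = ins r.1 (lf f) △ .nil := e
      obtain ⟨l1, l2⟩ := low_fh hf hr
      have k1 := inner_one g3 hs (by rw [X_num]; exact hk) e1
      have e2 : OddHC.cont w.1 = raise (OddHC.cont (ins r.1 (lf f))) := by
        rw [e1, cont_node, cont_nil, add_zero]
      rw [e2] at hc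
      generalize ins r.1 (lf f) = Y at *
      have e3 : (OddHC.cont Y).sup + 1 = OddHC.ht w.1 := by
        rw [OddHC.ht_eq w.1, e2, sup_raise]
      have e4 : (raise (OddHC.cont Y)).count 2 = (OddHC.cont Y).count 2 := count_two_raise (by omega)
      have e5 := count_three_raise (M := OddHC.cont Y) (by omega)
      by_cases h6 : 1 ≤ (OddHC.cont Y).count 2
      · have := l1 h6
        omega
      · rcases hc with h2 | ⟨h7, h2⟩
        · omega
        · have := l2 (by omega) (by omega)
          omega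
  · exact end2_last h.en e
  · exact sta2_first h.sta e

/-- the inner words of a gadget with the arcs of J2B, `R` explicit -/
def J2Ar (R : BinaryTree Unit) (F : Set (Cyc k)) (g : DG k) : Prop :=
  ∃ (B S : BinaryTree Unit) (w0 : X k), SqD k R B S ∧ (∀ c ∈ F, htc c = OddHC.ht R) ∧
    ∀ p ∈ g.arcs, ∃ i ∈ [1, 3, 6, 8], innA p = {TT (sX R B S w0 i)}

theorem J2Ar.in (h : J2Ar R F g) : J2In F g := by
  obtain ⟨B, S, w0, h1⟩ := h
  exact ⟨R, B, S, w0, h1⟩

/-- **I-J2B-E** -/
theorem J2Ar.inner_E (h : J2Ar R F g) (hne : F.Nonempty) {g0 : ℕ} (g3 : 3 ≤ g0) (hk : g0 < k)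
    (hb : ∀ a b, FM R a b → Aft' g0 b) (h4 : 4 ≤ OddHC.ht R)
    (h2 : 1 ≤ (OddHC.cont R).count 2 ∨ (4 ≤ g0 ∧ 1 ≤ (OddHC.cont R).count 3)) (h' : TyE F' g')
    (hle : ∀ c ∈ F, ∀ d ∈ F', htc c ≤ htc d) : ∀ p ∈ g.arcs, ∀ w ∈ innA p, w ∉ g'.B := by
  obtain ⟨B, S, w0, h1, hF, hg⟩ := h
  obtain ⟨a, b, h3⟩ := h1.fmt
  intro p hp w hw
  obtain ⟨i, hi, e⟩ := hg p hp
  rw [e] at hw
  obtain rfl : w = _ := hw
  have hht := h1.htInn w0 hi
  refine (h1.inB w0 hi).not_E g3 hk (h1.staB w0 hi h3.fm (hb a b h3.fm)) ?_ h' ?_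
  · rw [hht]
    split <;> omega
  · by_cases hi1 : i = 1
    · left
      intro d hd
      obtain ⟨z, hz⟩ := hne
      have h5 := hle z hz d hd
      rw [hF z hz] at h5
      rw [htc_cyc, hht, if_pos hi1]
      exact h5
    · right
      rw [h1.innCB w0 hi 2 le_rfl (by omega)]
      rcases h2 with h2 | ⟨h6, h2⟩
      · exact Or.inl h2
      · right
        refine ⟨h6, ?_⟩
        rw [h1.innCB w0 hi 3 (by omega) (by omega)]
        exact h2

/-! ### Sharp words -/

/-- the first maximum of a sharp word -/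
theorem sharp_fm {j : ℕ} {y : X j} {Y : BinaryTree Unit} (hy : y.1 = (Y △ .nil) △ .nil) {a b : List Bool}
    (h : FM Y a b) (hR : (TT y).1 = R) : FM R (b.map not ++ [true]) (false :: false :: false :: a.map not) := by
  have hp := JV.parts_of h
  have hw : wd R = b.map not ++ (true :: true :: false :: false :: false :: a.map not) := by
    rw [← hR]
    have := JVi.wd3 h hy
    simpa using this
  have hht : Tsq.ht R = Tsq.ht Y + 2 := by
    rw [H1.ht_eq, H1.ht_eq, ← hR, OddHC.ht_eq, cont_TT, ← OddHC.ht_eq, hy, ht_node, ht_node]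
    have h00 : OddHC.ht (BinaryTree.nil : BinaryTree Unit) = 0 := rfl
    omega
  have c1 : ∀ m, ((b.map not).take m).count true = (b.take m).count false := by
    intro m
    rw [← List.map_take]
    exact Tsq.count_not_true _
  have c2 : ∀ m, ((b.map not).take m).count false = (b.take m).count true := by
    intro m
    rw [← List.map_take]
    exact Tsq.count_not_false _
  have hbot := hp.bot
  refine ⟨by rw [hw]; simp, ?_, ?_⟩
  · intro m
    rw [hht]
    rcases Nat.lt_or_ge (b.map not).length m with h4 | h4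
    · rw [List.take_of_length_le (by simp at h4 ⊢; omega), List.count_append, List.count_append,
        Tsq.count_not_true, Tsq.count_not_false]
      simp
      omega
    · rw [List.take_append_of_le_length h4, c1, c2]
      have := hp.lo' m
      omega
  · rw [hht, List.count_append, List.count_append, Tsq.count_not_true, Tsq.count_not_false]
    simp
    omega

/-- the first letters in front of the first maximum -/
theorem FM.front {Y : BinaryTree Unit} {a b : List Bool} (h : FM Y a b) (h2 : 2 ≤ Tsq.ht Y) :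
    ∃ r, a = true :: r := by
  have ht := h.top
  cases a with
  | nil => simp at ht; omega
  | cons x r =>
    have h1 := wd_take Y 1
    rw [h.eq, List.cons_append, List.take_succ_cons] at h1
    cases x
    · simp at h1
    · exact ⟨r, rfl⟩

/-- **sharp `R` of height at least 4**: `0000` after the first maximum -/
theorem sharp_aft (hs : ¬ JV.NS R) (h4 : 4 ≤ OddHC.ht R) : ∀ a b, FM R a b → Aft' 3 b := by
  intro a b h
  unfold JV.NS at hs
  push Not at hs
  obtain ⟨j, y, Y, hy, hR⟩ := hs
  have hht : OddHC.ht R = OddHC.ht Y + 2 := by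
    rw [← hR, OddHC.ht_eq, cont_TT, ← OddHC.ht_eq, hy, ht_node, ht_node]
    have h00 : OddHC.ht (BinaryTree.nil : BinaryTree Unit) = 0 := rfl
    omega
  have hY : Y ≠ .nil := by
    rintro rfl
    have h00 : OddHC.ht (BinaryTree.nil : BinaryTree Unit) = 0 := rfl
    omega
  obtain ⟨c, d, h5⟩ := JV.FM_exists hY
  obtain ⟨rfl, rfl⟩ := (sharp_fm hy h5 hR).uniq h
  obtain ⟨r, rfl⟩ := FM.front h5 (by rw [H1.ht_eq]; omega)
  left
  exact ⟨r.map not, by simp⟩

/-- a word with all parts at least 3 starts with `111` -/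
theorem lead111 {Y : BinaryTree Unit} (hY : Y ≠ .nil) (h1 : (OddHC.cont Y).count 1 = 0)
    (h2 : (OddHC.cont Y).count 2 = 0) : ∃ r, wd Y = true :: true :: true :: r := by
  cases Y with
  | nil => exact absurd rfl hY
  | node _ A C =>
    have e : OddHC.cont (A △ C) = raise (OddHC.cont A) + OddHC.cont C := rfl
    have h1' : (raise (OddHC.cont A) + OddHC.cont C).count 1 = 0 := h1
    have h2' : (raise (OddHC.cont A) + OddHC.cont C).count 2 = 0 := h2
    rw [Multiset.count_add] at h1' h2'
    have r0 : raise (OddHC.cont (BinaryTree.nil : BinaryTree Unit)) = {1} := raise_nil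
    cases A with
    | nil =>
      rw [r0] at h1'
      simp at h1'
    | node _ D E =>
      have e2 : OddHC.cont (D △ E) = raise (OddHC.cont D) + OddHC.cont E := rfl
      cases D with
      | nil =>
        exfalso
        have e3 : OddHC.cont (.nil △ E) = OddHC.cont E + {1} := by
          rw [add_comm, ← r0]; rfl
        have h5 : (raise (OddHC.cont (.nil △ E))).count 1 = 0 := by
          have : (raise (OddHC.cont (.nil △ E))).count 1 + (OddHC.cont C).count 1 = 0 := h1'
          omega
        rw [e3] at h5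
        have h6 := J3.raise_one (cont_pos E) h5
        have h7 : (raise (OddHC.cont (.nil △ E))).count 2 = 0 := by
          have : (raise (OddHC.cont (.nil △ E))).count 2 + (OddHC.cont C).count 2 = 0 := h2'
          omega
        rw [e3, h6] at h7
        revert h7
        simp [raise]
      | node _ G H =>
        exact ⟨wd G ++ false :: (wd H ++ (false :: (wd E ++ (false :: wd C)))), by simp [wd]⟩

/-- **sharp `R` without a part 2, at least two solitons**: `00000` after the first maximum -/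
theorem sharp_aft4 (hs : ¬ JV.NS R) (h4 : 4 ≤ OddHC.ht R) (h1 : (OddHC.cont R).count 1 = 0)
    (h2 : (OddHC.cont R).count 2 = 0) (h3 : 1 ≤ (OddHC.cont R).count 3) : ∀ a b, FM R a b → Aft' 4 b := by
  intro a b h
  unfold JV.NS at hs
  push Not at hs
  obtain ⟨j, y, Y, hy, hR⟩ := hs
  have hc : OddHC.cont R = raise (raise (OddHC.cont Y)) := by
    rw [← hR, cont_TT, hy, cont_node, cont_node, cont_nil, add_zero, add_zero]
  have hht : OddHC.ht R = OddHC.ht Y + 2 := by
    rw [← hR, OddHC.ht_eq, cont_TT, ← OddHC.ht_eq, hy, ht_node, ht_node]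
    have h00 : OddHC.ht (BinaryTree.nil : BinaryTree Unit) = 0 := rfl
    omega
  have hY : Y ≠ .nil := by
    rintro rfl
    have h00 : OddHC.ht (BinaryTree.nil : BinaryTree Unit) = 0 := rfl
    omega
  have hsup : (OddHC.cont Y).sup = OddHC.ht Y := (OddHC.ht_eq Y).symm
  have hs1 : (raise (OddHC.cont Y)).sup = OddHC.ht Y + 1 := by rw [sup_raise, hsup]
  have e3 : 3 ≤ OddHC.ht Y := by
    by_contra hlt
    have h5 : OddHC.ht Y = 2 := by omega
    have h6 : (OddHC.cont Y).count 3 = 0 := by
      rw [Multiset.count_eq_zero]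
      intro h7
      have := Multiset.le_sup h7
      omega
    have h8 : (raise (raise (OddHC.cont Y))).count 3 = 0 := by
      unfold raise at hs1 ⊢
      rw [hs1, h5, hsup, h5, Multiset.count_cons_of_ne (by norm_num), Multiset.erase_cons_head,
        Multiset.count_erase_of_ne (by norm_num)]
      exact h6
    rw [← hc] at h8
    omega
  have k1 : (OddHC.cont Y).count 1 = 0 := by
    rw [hc, count_raise 1 (by omega) (by omega), count_raise 1 (by omega) (by omega)] at h1
    exact h1
  have k2 : (OddHC.cont Y).count 2 = 0 := by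
    rw [hc, count_raise 2 (by omega) (by omega), count_raise 2 (by omega) (by omega)] at h2
    exact h2
  obtain ⟨r, hr⟩ := lead111 hY k1 k2
  obtain ⟨c, d, h5⟩ := JV.FM_exists hY
  obtain ⟨rfl, rfl⟩ := (sharp_fm hy h5 hR).uniq h
  have ht := h5.top
  rw [H1.ht_eq] at ht
  have hl : 2 ≤ c.length := by
    have := List.count_le_length (a := true) (l := c)
    omega
  rw [h5.eq] at hr
  match c, hl, hr with
  | x :: y :: c', _, hr =>
    simp only [List.cons_append, List.cons.injEq] at hr
    obtain ⟨rfl, rfl, -⟩ := hr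
    left
    exact ⟨c'.map not, by simp⟩

/-- **I-J2B-E, sharp `R`** -/
theorem J2Ar.inner_E_sharp (h : J2Ar R F g) (hne : F.Nonempty) (hk : 4 < k) (hs : ¬ JV.NS R)
    (h4 : 4 ≤ OddHC.ht R) (h2 : 1 ≤ (OddHC.cont R).count 2 ∨ 1 ≤ (OddHC.cont R).count 3) (h' : TyE F' g')
    (hle : ∀ c ∈ F, ∀ d ∈ F', htc c ≤ htc d) : ∀ p ∈ g.arcs, ∀ w ∈ innA p, w ∉ g'.B := by
  have h1 : (OddHC.cont R).count 1 = 0 := by
    obtain ⟨_, _, _, h1, _⟩ := h
    exact h1.one
  by_cases hz : 1 ≤ (OddHC.cont R).count 2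
  · exact h.inner_E hne le_rfl (by omega) (sharp_aft hs h4) h4 (Or.inl hz) h' hle
  · have h3 : 1 ≤ (OddHC.cont R).count 3 := by omega
    exact h.inner_E hne (by norm_num) hk (sharp_aft4 hs h4 h1 (by omega) h3) h4 (Or.inr ⟨le_rfl, h3⟩) h' hle

end J3

end Pool.OddHC
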