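import Pool.Agent.Work.MP_8f87b2_h99.J2I2
import Pool.Agent.Work.MP_8f87b2_h14.P5S
import Pool.Agent.Work.MP_8f87b2_h88.TyMar
import Pool.Agent.Work.MP_8f87b2_h69w.TyBw
import Pool.Agent.Work.MP_8f87b2_h76.FyW
import Pool.Agent.Work.MP_8f87b2_h13.R3In
import Pool.Agent.Work.MP_8f87b2_h13.R3DnB

/-!
# MP_8f87b2_co: inner rows out of J2B, fourth part: P5, P5M, Dn, Fz, all windows without a part 1, the marriage triples

P5, P5M: every word of the 5-cycle starts with `()` or `1101` or ends with `()` or `0100`. Dn: `bv 0 U` (holds for `DnSh`,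
`DnB`). Fz: no condition. `J2In.inner_win`: any gadget with words of windows `W R [q + 1] B S i` without a part 1 in `R, B, S`
(Bw, V, LA, LB, LC, ..). `J2In.inner_Mar`: `P, Q, R` without beads.
-/

set_option autoImplicit false

namespace Pool.OddHC

open BinaryTree Equiv Multiset Pool.Agent.Work.MP_8f87b2_co

namespace J3

open H1

variable {k n : ℕ} {R B S : BinaryTree Unit} {w : X k} {F F' : Set (Cyc k)} {g g' : DG k}

/-! ### P5 -/

theorem sta2_1101 {l r : List Bool} (h : Sta 2 l) : l ≠ true :: true :: false :: true :: r := by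
  rintro rfl
  rcases h with ⟨r', h⟩ | ⟨r', h⟩ <;> simp [List.replicate_succ] at h

theorem end2_0100 {l r : List Bool} (h : End 2 l) : l ≠ r ++ [false, true, false, false] := by
  rintro rfl
  rcases h with ⟨r', h⟩ | ⟨r', h⟩
  · have h1 := congrArg List.reverse h
    simp [List.replicate_succ] at h1
  · have h1 := congrArg List.reverse h
    simp [List.replicate_succ] at h1

/-- a word of P5, P5M -/
theorem InB.not_p5 (h : InB n w.1) {S : BinaryTree Unit} {i : ℕ} (hi : i < 5) (e : w.1 = P5.wR S i ∨ w.1 = P5.wM S i) :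
    False := by
  have h1 := h.sta
  have h2 := h.en
  rcases e with e | e
  · interval_cases i
    · rw [e] at h1
      refine sta2_1101 h1 (r := wd S ++ [false, false]) ?_
      simp [P5.wR, wd]
    · exact sta2_first h1 e
    · refine end2_last h2 (Y := app S ((.nil △ .nil) △ .nil)) ?_
      rw [e, H1.app_assoc]
      rfl
    · rw [e] at h1
      refine sta2_1101 h1 (r := false :: false :: wd S) ?_
      simp [P5.wR, P5.o, wd]
    · exact sta2_first h1 e
  · interval_cases i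
    · rw [e] at h2
      refine end2_0100 h2 (r := true :: true :: wd S) ?_
      simp [P5.wM, P5.o, wd]
    · refine end2_last h2 (Y := S △ (.nil △ .nil)) ?_
      rw [e]
      rfl
    · rw [e] at h2
      refine end2_0100 h2 (r := wd S ++ [true, true]) ?_
      simp [P5.wM, P5.o, wd, wd_app]
    · exact sta2_first h1 e
    · exact sta2_first h1 e

/-- **I-J2B-P5** -/
theorem J2In.inner_P5 (h : J2In F g) {S : BinaryTree Unit} (h' : TyPent P5.o S .nil .nil .nil F' g') :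
    ∀ p ∈ g.arcs, ∀ w ∈ innA p, w ∉ g'.B := by
  refine InB.row h fun n w _ h1 hw => ?_
  obtain ⟨u, hu, _, rfl, rfl⟩ := h'
  change w ∈ (Finset.range 5).image u at hw
  obtain ⟨i, hi, rfl⟩ := Finset.mem_image.1 hw
  rw [Finset.mem_range] at hi
  exact h1.not_p5 hi (Or.inl ((hu i hi).trans (P5.wR_eq S i hi)))

/-- **I-J2B-P5M** -/
theorem J2In.inner_P5M (h : J2In F g) {S : BinaryTree Unit} (h' : TyPent .nil S P5.o .nil .nil F' g') :
    ∀ p ∈ g.arcs, ∀ w ∈ innA p, w ∉ g'.B := by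
  refine InB.row h fun n w _ h1 hw => ?_
  obtain ⟨u, hu, _, rfl, rfl⟩ := h'
  change w ∈ (Finset.range 5).image u at hw
  obtain ⟨i, hi, rfl⟩ := Finset.mem_image.1 hw
  rw [Finset.mem_range] at hi
  exact h1.not_p5 hi (Or.inr ((hu i hi).trans (P5.wM_eq S i hi)))

theorem J2In.inner_P5D (h : J2In F g) {S : BinaryTree Unit} (h' : TyP5D S F' g') :
    ∀ p ∈ g.arcs, ∀ w ∈ innA p, w ∉ g'.B := h.inner_P5 h'.2

theorem J2In.inner_P5MD (h : J2In F g) {S : BinaryTree Unit} (h' : TyP5MD S F' g') :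
    ∀ p ∈ g.arcs, ∀ w ∈ innA p, w ∉ g'.B := h.inner_P5M h'.2

/-! ### Dn, Fz -/

theorem nbb_two99 {V : BinaryTree Unit} (h : ∀ x ∈ OddHC.cont V, 2 ≤ x) : nbb V := by
  apply nbb_one
  rw [Multiset.count_eq_zero]
  intro h1
  have := h 1 h1
  omega

/-- the insides of the DOWN links: beads only at the top level -/
theorem DnSh.bv {U : BinaryTree Unit} (h : DnSh U) : bv 0 U := by
  have one : ∀ x ∈ OddHC.cont U, x = 1 ∨ 4 ≤ x := by
    intro x hx
    have h1 := h.p23 x hx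
    have h2 := cont_pos U x hx
    omega
  rcases h.sh with ⟨V, n, hn, e⟩ | ⟨V, n, hn, e, h2⟩
  · have hV : ∀ x ∈ OddHC.cont V, 2 ≤ x := by
      intro x hx
      have h3 : x ∈ OddHC.cont U := by
        rw [e, cont_app]
        exact Multiset.mem_add.2 (Or.inl hx)
      rcases one x h3 with rfl | h4
      · exfalso
        have h5 := h.one
        rw [e, cont_app, cont_node, cont_nil, raise_zero, Multiset.count_add, Multiset.count_add,
          Multiset.count_singleton_self] at h5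
        have h6 := Multiset.count_pos.2 hx
        omega
      · omega
    rw [e, ← ch_eq]
    exact bv_app ((nbb_two99 hV).bv 0) (bv_leaf ((nbb_ch _).bv 0))
  · refine (nbb_two99 ?_).bv 0
    intro x hx
    have h3 := h2 x hx
    rcases one x hx with rfl | h4
    · omega
    · omega

theorem DnB.bv {U : BinaryTree Unit} (h : DnB U) : bv 0 U := by
  refine (nbb_two99 ?_).bv 0
  intro x hx
  have := h.hv x hx
  omega

/-- **I-J2B-Dn** -/
theorem J2In.inner_Dn (h : J2In F g) {U : BinaryTree Unit} (h' : TyC 2 U F' g') (hU : bv 0 U) :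
    ∀ p ∈ g.arcs, ∀ w ∈ innA p, w ∉ g'.B := h.inner_Cr h' hU

/-- **I-J2B-Fz** -/
theorem J2In.inner_Fz (h : J2In F g) (h' : TyFz F' g') : ∀ p ∈ g.arcs, ∀ w ∈ innA p, w ∉ g'.B := by
  obtain ⟨c, R, h1, h2⟩ := h'
  refine h.inner_Cr h2 ((nbb_two99 ?_).bv 0)
  intro x hx
  have := h1.part x hx
  have := h1.c3
  omega

/-! ### Windows -/

/-- **I-J2B-any window without a part 1, right or mirrored** -/
theorem J2In.inner_win (h : J2In F g) {C : Finset (X k)} (hC : ∀ w ∈ C, ∃ (q : ℕ) (R B S : BinaryTree Unit) (i : ℕ),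
    (OddHC.cont R).count 1 = 0 ∧ (OddHC.cont B).count 1 = 0 ∧ (OddHC.cont S).count 1 = 0 ∧ i < 20 ∧
    (w.1 = W R (ch (q + 1)) B S i ∨ w.1 = Tsq.mir (W R (ch (q + 1)) B S i))) :
    ∀ p ∈ g.arcs, ∀ w ∈ innA p, w ∉ C := by
  refine InB.row h fun n w _ h1 hw => ?_
  obtain ⟨q, R, B, S, i, h2, h3, h4, hi, e⟩ := hC w hw
  exact h1.not_win h2 h3 h4 hi e

/-- `R` alone -/
theorem J2In.inner_win' (h : J2In F g) {C : Finset (X k)} (hC : ∀ w ∈ C, ∃ (q : ℕ) (R B S : BinaryTree Unit) (i : ℕ),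
    Tsq.sq R = (S, B) ∧ R ≠ .nil ∧ (OddHC.cont R).count 1 = 0 ∧ i < 20 ∧
    (w.1 = W R (ch (q + 1)) B S i ∨ w.1 = Tsq.mir (W R (ch (q + 1)) B S i))) :
    ∀ p ∈ g.arcs, ∀ w ∈ innA p, w ∉ C := by
  refine h.inner_win ?_
  intro w hw
  obtain ⟨q, R, B, S, i, hs, hR, h1, hi, e⟩ := hC w hw
  have h2 := sq_cnt R hR
  rw [hs] at h2
  rw [← h2, Multiset.count_add] at h1
  change (OddHC.cont B).count 1 + (OddHC.cont S).count 1 = 0 at h1
  refine ⟨q, R, B, S, i, ?_, by omega, by omega, hi, e⟩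
  rw [← h2, Multiset.count_add]
  exact h1

/-- **I-J2B-V** (every window with `cont R >= 2`) -/
theorem J2In.inner_V (h : J2In F g) (h' : TyV F' g') : ∀ p ∈ g.arcs, ∀ w ∈ innA p, w ∉ g'.B := by
  refine h.inner_win ?_
  obtain ⟨q, R, B, S, w0, h1, hne, rfl, rfl⟩ := h'
  intro w hw
  obtain ⟨i, hi, rfl⟩ := mem_gad20.1 hw
  have hR : (OddHC.cont R).count 1 = 0 := by
    rw [Multiset.count_eq_zero]
    intro h2
    have := h1.two 1 h2
    omega
  have hc := congrArg (Multiset.count 1) h1.eq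
  rw [Multiset.count_add] at hc
  exact ⟨q, R, B, S, i, hR, by omega, by omega, hi, Or.inl (wX_eq h1.dat h1.size w0 hi)⟩

/-- **I-J2B-Bw** -/
theorem J2In.inner_Bw99 (h : J2In F g) (h' : TyBw F' g') : ∀ p ∈ g.arcs, ∀ w ∈ innA p, w ∉ g'.B :=
  h.inner_V h'.toV

/-! ### Marriage triples -/

/-- **I-J2B-Mar**: `P, Q, R` without beads -/
theorem J2In.inner_Mar {P Q R : BinaryTree Unit} (h : J2In F g) (h' : TyMar P Q R F' g') (hP : nbb P) (hQ : nbb Q)
    (hR : nbb R) : ∀ p ∈ g.arcs, ∀ w ∈ innA p, w ∉ g'.B := by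
  refine InB.row h fun n w _ h1 hw => ?_
  apply h1.not_bv
  rcases TyMar.words h' w hw with ⟨e, _⟩ | ⟨_, e | e⟩ <;> rw [e]
  · exact bv_w1 (hP.bv 1) (hQ.bv 0) (hR.bv 1)
  · exact bv_w1 (hQ.bv 1) (hR.bv 0) (hP.bv 1)
  · exact bv_w1 (hR.bv 1) (hP.bv 0) (hQ.bv 1)

end J3

end Pool.OddHC
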