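import Pool.Agent.Work.MP_8f87b2_h99.Ty9
import Pool.Agent.Work.MP_8f87b2_mid.Dis
import Pool.Agent.Work.MP_8f87b2_h71ae.ALT

/-!
MP_8f87b2_co: the level 3 gadgets `Is9 (lp 1) (lp 1) S` against the E-triples.
-/

set_option autoImplicit false

namespace Pool.OddHC

open Finset Equiv BinaryTree Pool.Agent.Work.MP_8f87b2_co

variable {k : ℕ} {S Y : BinaryTree Unit}

/-! ### Contents -/

theorem cont_sq99 (hS : S ≠ .nil) : cont (Tsq.sq S).2 + cont (Tsq.sq S).1 = cont S := by
  have h1 := Tsq.TT_sq (⟨S, mem_treesOfNumNodesEq.2 rfl⟩ : X S.numNodes) hS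
  have h2 : contc (cyc (TT (TT (⟨S, mem_treesOfNumNodesEq.2 rfl⟩ : X S.numNodes)))) =
      contc (cyc (⟨S, mem_treesOfNumNodesEq.2 rfl⟩ : X S.numNodes)) := by
    rw [cyc_TT, cyc_TT]
  rw [contc_cyc, contc_cyc, h1, cont_app] at h2
  exact h2

theorem count_leaf {B : BinaryTree Unit} {b : ℕ} (hb : 2 ≤ b) :
    (cont (.nil △ B)).count b = (cont B).count b := by
  rw [cont_node, cont_nil, raise_zero, Multiset.count_add, Multiset.count_singleton,
    if_neg (by omega), zero_add]

theorem count_node {A B : BinaryTree Unit} {b : ℕ} (hb : b < ht A) :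
    (cont (A △ B)).count b = (cont A).count b + (cont B).count b := by
  rw [cont_node, Multiset.count_add, count_raise b (by rw [← ht_eq]; omega)
    (by rw [← ht_eq]; omega)]

theorem count_app (A B : BinaryTree Unit) (b : ℕ) :
    (cont (app A B)).count b = (cont A).count b + (cont B).count b := by
  rw [cont_app, Multiset.count_add]

theorem count_xT (hS : S ≠ .nil) {b : ℕ} (hb : b < ht S) :
    (cont (xT S)).count b = (cont S).count b := by
  rw [xT_sq, count_node (by rw [(ht_sq hS).1]; exact hb), ← cont_sq99 hS, Multiset.count_add,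
    add_comm]

/-! ### Last components -/

theorem lastB_sq : ∀ {S : BinaryTree Unit}, H1.lastB (Tsq.sq S).2 = true → H1.lastB S = true := by
  intro S
  induction S with
  | nil => intro h; exact h
  | node u A C _ ih =>
    intro h
    change H1.lastB (Tsq.sq (A △ C)).2 = true at h
    change H1.lastB (A △ C) = true
    by_cases h1 : Tsq.ht A + 1 < Tsq.ht C
    · have hC : C ≠ .nil := by
        rintro rfl
        simp [Tsq.ht] at h1
      obtain ⟨Xx, Y, hX⟩ : ∃ Xx Y, (Tsq.sq C).1 = Xx △ Y := by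
        cases hS : (Tsq.sq C).1 with
        | nil => exact absurd hS (Tsq.sq_ne hC)
        | node _ Xx Y => exact ⟨Xx, Y, rfl⟩
      rw [Tsq.sq_lt h1 hX] at h
      rw [H1.lastB_cons hC]
      exact ih h
    · have h2 : (Tsq.sq (A △ C)).2 = C := by
        by_cases hA : A = .nil
        · subst hA
          rw [Tsq.sq_nil (by simpa [Tsq.ht] using h1)]
        · rw [Tsq.sq_ge hA (by omega)]
      rw [h2] at h
      have hC : C ≠ .nil := by
        rintro rfl
        exact absurd h (by simp [H1.lastB])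
      rw [H1.lastB_cons hC]
      exact h

theorem comps_two {A B C : BinaryTree Unit} {l : List (BinaryTree Unit)}
    (h : comps A = l ++ [B]) (h' : comps A = [C]) : l = [] ∧ B = C := by
  rw [h] at h'
  cases l with
  | nil => simpa using h'
  | cons x l => simp at h'

theorem comps_last {Y Z B : BinaryTree Unit} {l : List (BinaryTree Unit)}
    (h : comps Z = l ++ [B]) (e : Z = app Y (.nil △ .nil)) : B = .nil ∧ comps Y = l := by
  rw [e, comps_app] at h
  have h1 : comps Y ++ [BinaryTree.nil] = l ++ [B] := h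
  obtain ⟨h2, h3⟩ := List.append_inj' h1 rfl
  simp at h3
  exact ⟨h3.symm, h2⟩

/-! ### The common words with `(Y)`, `Y()`, `()Y` -/

/-- the possible `Y` -/
def L3Y (S : BinaryTree Unit) (i : ℕ) (Y : BinaryTree Unit) : Prop :=
  (i = 2 ∧ Y = (.nil △ (.nil △ S)) △ .nil) ∨
  (i = 3 ∧ (Y = .nil △ ((S △ .nil) △ .nil) ∨ Y = (S △ .nil) △ (.nil △ .nil))) ∨
  (i = 4 ∧ Y = (app S (.nil △ (.nil △ .nil))) △ .nil) ∨
  (i = 5 ∧ Y = S △ ((.nil △ .nil) △ .nil)) ∨
  (i = 6 ∧ Y = (.nil △ xT S) △ .nil) ∨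
  (i = 7 ∧ (Y = .nil △ app (xT S) (.nil △ .nil) ∨ Y = app (xT S) (.nil △ (.nil △ .nil))))

theorem l3_E (hS : S ≠ .nil) (hl : H1.lastB S = false) {i : ℕ} (h2 : 2 ≤ i) (hi : i < 9)
    (hw : w9L (lp 1) (lp 1) S (xT S) i = Y △ .nil ∨
      w9L (lp 1) (lp 1) S (xT S) i = app Y (.nil △ .nil) ∨
      w9L (lp 1) (lp 1) S (xT S) i = .nil △ Y) : L3Y S i Y := by
  have hsq := Tsq.sq_ne hS
  have hB : H1.lastB (Tsq.sq S).2 = false := by
    cases h : H1.lastB (Tsq.sq S).2 with
    | false => rfl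
    | true => rw [lastB_sq h] at hl; exact absurd hl (by simp)
  have cl : comps (lp 1) = [.nil] := rfl
  have cX : comps (xT S) = (Tsq.sq S).1 :: comps (Tsq.sq S).2 := by rw [xT_sq]; rfl
  have ap : ∀ {Z C : BinaryTree Unit}, comps Z = comps C → Z = C := fun h => comps_inj h
  interval_cases i
  · -- 2
    have e : w9L (lp 1) (lp 1) S (xT S) 2 = .nil △ ((.nil △ (.nil △ S)) △ .nil) := rfl
    rw [e] at hw
    rcases hw with h | h | h
    · injection h with _ h3 h4
      cases h4
    · obtain ⟨h3, -⟩ := comps_last (l := [.nil]) (B := .nil △ (.nil △ S)) rfl h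
      cases h3
    · injection h with _ h3 h4
      exact Or.inl ⟨rfl, h4.symm⟩
  · have e : w9L (lp 1) (lp 1) S (xT S) 3 = .nil △ ((S △ .nil) △ (.nil △ .nil)) := rfl
    rw [e] at hw
    rcases hw with h | h | h
    · injection h with _ h3 h4
      cases h4
    · obtain ⟨-, h4⟩ := comps_last (l := [.nil, S △ .nil]) (B := .nil) rfl h
      exact Or.inr (Or.inl ⟨rfl, Or.inl (ap h4)⟩)
    · injection h with _ h3 h4
      exact Or.inr (Or.inl ⟨rfl, Or.inr h4.symm⟩)
  · have e : w9L (lp 1) (lp 1) S (xT S) 4 = (app S (.nil △ (.nil △ .nil))) △ (.nil △ .nil) := rfl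
    rw [e] at hw
    rcases hw with h | h | h
    · injection h with _ h3 h4
      cases h4
    · obtain ⟨-, h4⟩ := comps_last (l := [app S (.nil △ (.nil △ .nil))]) (B := .nil) rfl h
      exact Or.inr (Or.inr (Or.inl ⟨rfl, ap h4⟩))
    · injection h with _ h3 h4
      exact absurd h3 (Tsq.app_ne_nil hS)
  · have e : w9L (lp 1) (lp 1) S (xT S) 5 = S △ ((.nil △ .nil) △ (.nil △ .nil)) := rfl
    rw [e] at hw
    rcases hw with h | h | h
    · injection h with _ h3 h4
      cases h4
    · obtain ⟨-, h4⟩ := comps_last (l := [S, .nil △ .nil]) (B := .nil) rfl h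
      exact Or.inr (Or.inr (Or.inr (Or.inl ⟨rfl, ap h4⟩)))
    · injection h with _ h3 h4
      exact absurd h3 hS
  · have e : w9L (lp 1) (lp 1) S (xT S) 6 = .nil △ ((.nil △ xT S) △ .nil) := rfl
    rw [e] at hw
    rcases hw with h | h | h
    · injection h with _ h3 h4
      cases h4
    · obtain ⟨h3, -⟩ := comps_last (l := [.nil]) (B := .nil △ xT S) rfl h
      cases h3
    · injection h with _ h3 h4
      exact Or.inr (Or.inr (Or.inr (Or.inr (Or.inl ⟨rfl, h4.symm⟩))))
  · have e : w9L (lp 1) (lp 1) S (xT S) 7 = .nil △ app (xT S) (.nil △ (.nil △ .nil)) := rfl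
    rw [e] at hw
    rcases hw with h | h | h
    · injection h with _ h3 h4
      rw [xT_sq] at h4
      cases h4
    · obtain ⟨-, h4⟩ := comps_last (l := .nil :: (comps (xT S) ++ [.nil])) (B := .nil) (by
        rw [comps_node, comps_app]
        change .nil :: (comps (xT S) ++ [.nil, .nil]) = _
        simp) h
      refine Or.inr (Or.inr (Or.inr (Or.inr (Or.inr ⟨rfl, Or.inl (ap ?_)⟩))))
      rw [h4, comps_node, comps_app]
      rfl
    · injection h with _ h3 h4
      exact Or.inr (Or.inr (Or.inr (Or.inr (Or.inr ⟨rfl, Or.inr h4.symm⟩))))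
  · exfalso
    have e : w9L (lp 1) (lp 1) S (xT S) 8 = (.nil △ .nil) △ (.nil △ xT S) := rfl
    rw [e] at hw
    rcases hw with h | h | h
    · injection h with _ h3 h4
      cases h4
    · have h3 : H1.lastB ((.nil △ .nil) △ (.nil △ xT S)) = true := by
        rw [h, H1.lastB_app (by simp)]
        rfl
      rw [H1.lastB_cons (by simp), xT_sq, H1.lastB_cons (by simp)] at h3
      cases hB' : (Tsq.sq S).2 with
      | nil =>
        rw [hB', H1.lastB_one] at h3
        exact hsq (H1.isNil_iff.1 h3)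
      | node _ C D =>
        rw [hB', H1.lastB_cons (by simp), ← hB', hB] at h3
        exact absurd h3 (by simp)
    · injection h with _ h3 h4
      cases h3

/-- heights and contents of the possible `Y` -/
theorem L3Y.fh {i : ℕ} (hS : S ≠ .nil) (h : L3Y S i Y) : ht S ≤ H1.fh Y := by
  have hX := ht_xT hS
  have hsq := Tsq.sq_ne hS
  have s1 := (ht_sq hS).1
  rcases h with ⟨_, rfl⟩ | ⟨_, rfl | rfl⟩ | ⟨_, rfl⟩ | ⟨_, rfl⟩ | ⟨_, rfl⟩ | ⟨_, rfl | rfl⟩
  · rw [H1.fh_node (by simp), ht_node, ht_node]; omega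
  · rw [H1.fh_leaf, H1.fh_node (by simp), ht_node]; omega
  · rw [H1.fh_node (by simp), ht_node]; omega
  · rw [H1.fh_node (Tsq.app_ne_nil hS), ht_app]; omega
  · rw [H1.fh_node hS]
  · rw [H1.fh_node (by simp), ht_node]; omega
  · rw [H1.fh_leaf, xT_sq]
    change ht S ≤ H1.fh (_ △ app _ _)
    rw [H1.fh_node hsq]; omega
  · rw [xT_sq]
    change ht S ≤ H1.fh (_ △ app _ _)
    rw [H1.fh_node hsq]; omega

theorem L3Y.count {i b : ℕ} (hS : S ≠ .nil) (h : L3Y S i Y) (h2 : 2 ≤ b) (hb : b < ht S) :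
    (cont S).count b ≤ (cont Y).count b := by
  have hX := count_xT hS hb
  have hX' := ht_xT hS
  rcases h with ⟨_, rfl⟩ | ⟨_, rfl | rfl⟩ | ⟨_, rfl⟩ | ⟨_, rfl⟩ | ⟨_, rfl⟩ | ⟨_, rfl | rfl⟩
  · rw [count_node (by rw [ht_node, ht_node]; omega), count_leaf h2, count_leaf h2]; omega
  · rw [count_leaf h2, count_node (by rw [ht_node]; omega), count_node hb]; omega
  · rw [count_node (by rw [ht_node]; omega), count_node hb]; omega
  · rw [count_node (by rw [ht_app]; omega), count_app]; omega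
  · rw [count_node hb]; omega
  · rw [count_node (by rw [ht_node]; omega), count_leaf h2]; omega
  · rw [count_leaf h2, count_app]; omega
  · rw [count_app]; omega

variable {F F' : Set (Cyc k)} {g g' : DG k}

/-- the common words of a level 3 gadget and an E-triple -/
theorem Is9.common_E (h : Is9 (lp 1) (lp 1) S F g) (ht : IsTri .nil Y .nil F' g')
    (hd : ∀ c ∈ F, c ∉ F') (hl : H1.lastB S = false) {w : X k} (hw : w ∈ g.B) (hw' : w ∈ g'.B) :
    ∃ i, L3Y S i Y ∧ w.1 = w9L (lp 1) (lp 1) S (xT S) i := by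
  obtain ⟨i, hi, e1, e2⟩ := h.words w hw
  have hS : S ≠ .nil := by
    obtain ⟨v, h1, -, -⟩ := h
    exact h1.ne
  refine ⟨i, ?_, e1⟩
  have hww : w.1 = Y △ .nil ∨ (cyc w ∈ F' ∧ (w.1 = app Y (.nil △ .nil) ∨ w.1 = .nil △ Y)) :=
    ht.words w hw'
  rcases Nat.lt_or_ge i 2 with h2 | h2
  · exfalso
    rcases hww with h3 | ⟨h3, -⟩
    · rw [e1] at h3
      have h4 := congrArg (fun t => (comps t).length) h3
      have h5 := List.length_pos_iff.2 (comps_ne hS)
      interval_cases i
      · change (comps (app S ((app (lp 1 △ .nil) (lp 1)) △ .nil))).length = 1 at h4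
        rw [comps_app, comps_node, List.length_append, List.length_cons] at h4
        omega
      · change (comps (_ △ S)).length = 1 at h4
        rw [comps_node, List.length_cons] at h4
        omega
    · exact hd _ (e2 h2) h3
  · apply l3_E hS hl h2 hi
    rw [← e1]
    rcases hww with h3 | ⟨-, h3 | h3⟩
    · exact Or.inl h3
    · exact Or.inr (Or.inl h3)
    · exact Or.inr (Or.inr h3)

/-- **L3 against E** if `S` has a part `2` or `3` -/
theorem Is9.disj_E (h : Is9 (lp 1) (lp 1) S F g) (h' : TyE F' g') (hd : ∀ c ∈ F, c ∉ F')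
    (hl : H1.lastB S = false) (h4 : 4 ≤ OddHC.ht S)
    (hc : 1 ≤ (cont S).count 2 ∨ 1 ≤ (cont S).count 3) : ∀ w ∈ g.B, w ∉ g'.B := by
  intro w hw hw'
  obtain ⟨j, r, f, hj, hL, ht⟩ := h'
  obtain ⟨i, h1, -⟩ := h.common_E ht hd hl hw hw'
  have hS : S ≠ .nil := ne_of_ht (h := 0) (by omega)
  have he : (lf f).length = 2 * r.1.numNodes + 1 := by rw [lf_length, X_num]
  obtain ⟨l1, l2⟩ := H1.low_fh he hL
  have h2 := h1.fh hS
  have c2 := h1.count hS (b := 2) le_rfl (by omega)
  have c3 := h1.count hS (b := 3) (by norm_num) (by omega)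
  by_cases h5 : 1 ≤ (cont (ins r.1 (lf f))).count 2
  · have := l1 h5
    omega
  · have := l2 (by omega) (by omega)
    omega

end Pool.OddHC
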