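import Pool.Agent.Work.MP_8f87b2_mid.Types

/-!
# MP_8f87b2_co, partial theorem P3: the row E - E for all hosts

Two triples `(X)`, `X()`, `()X` and `(Y)`, `Y()`, `()Y` with disjoint sets of new T-cycles have no common word, for all `X`, `Y`
(no condition on the parts).
-/

set_option autoImplicit false

namespace Pool.OddHC

open Finset Equiv BinaryTree Pool.Agent.Work.MP_8f87b2_co

namespace P3

variable {k : ℕ} {F F' : Set (Cyc k)} {g g' : DG k} {X Y : BinaryTree Unit}

/-- the inside of a host is not empty -/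
theorem host_ne (h : IsTri .nil X .nil F g) : X ≠ .nil := by
  rintro rfl
  obtain ⟨a, b, c, ha, hb, hc, h1, h2, h3, rfl, rfl⟩ := h
  apply h1
  rw [show b = c from Subtype.ext (hb.trans hc.symm)]

/-- `X()` is not `(Y)`, `X` not empty -/
theorem app_ne_host (hX : X ≠ .nil) : app X (.nil △ .nil) ≠ Y △ .nil := by
  cases X with
  | nil => exact absurd rfl hX
  | node _ A B =>
    intro e
    have e' : A △ app B (.nil △ .nil) = Y △ .nil := e
    injection e' with _ _ e2
    cases B with
    | nil => exact absurd e2 (by simp [app])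
    | node _ C D => exact absurd e2 (by simp [app])

/-- a host is no new word -/
theorem host_new {Z : BinaryTree Unit} (hX : X ≠ .nil) (hY : Y ≠ .nil) (h : Z = w1 .nil X .nil)
    (h' : Z = w1 Y .nil .nil ∨ Z = w1 .nil .nil Y) : False := by
  have e : Z = X △ .nil := h
  rcases h' with h' | h'
  · have e1 : Z = app Y (.nil △ .nil) := h'
    exact app_ne_host hY (e1.symm.trans e)
  · have e1 : Z = .nil △ Y := h'
    have e2 := e.symm.trans e1
    injection e2 with _ e3 e4
    exact hX e3

/-- the triple determines the T-cycles -/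
theorem tri_F (h : IsTri .nil X .nil F g) (h' : IsTri .nil X .nil F' g') : F = F' := by
  obtain ⟨a, b, c, ha, hb, hc, h1, h2, h3, rfl, rfl⟩ := h
  obtain ⟨a', b', c', ha', hb', hc', h1', h2', h3', rfl, rfl⟩ := h'
  rw [show b = b' from Subtype.ext (hb.trans hb'.symm), show c = c' from Subtype.ext (hc.trans hc'.symm)]

theorem tri_nonempty (h : IsTri .nil X .nil F g) : F.Nonempty := by
  obtain ⟨a, b, c, ha, hb, hc, h1, h2, h3, rfl, rfl⟩ := h
  exact ⟨_, Or.inl rfl⟩

/-- **row E - E, all hosts** -/
theorem disjE (h : IsTri .nil X .nil F g) (h' : IsTri .nil Y .nil F' g') (hd : ∀ c ∈ F, c ∉ F') :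
    ∀ w ∈ g.B, w ∉ g'.B := by
  intro w hw hw'
  have hX := host_ne h
  have hY := host_ne h'
  rcases h.words w hw with e | ⟨e1, e2⟩
  · rcases h'.words w hw' with e' | ⟨e1', e2'⟩
    · have e3 : X △ .nil = Y △ .nil := (show w.1 = X △ .nil from e).symm.trans e'
      injection e3 with _ e4 _
      subst e4
      obtain ⟨c, hc⟩ := tri_nonempty h
      exact hd c hc (tri_F h h' ▸ hc)
    · exact host_new hX hY e e2'
  · rcases h'.words w hw' with e' | ⟨e1', e2'⟩
    · exact host_new hY hX e' e2
    · exact hd _ e1 e1'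

end P3

end Pool.OddHC
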